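import Pool.Agent.Helper6.NP.Main
import Pool.Agent.Helper6.SE.RootMem
import Pool.Agent.Helper1.SX.Krull

set_option autoImplicit false

/-!
# NP-15: from the strong splitting to the covers of all open subsets

`B` is any ring between `R` and its fraction field `ff R`, for instance the ring of regular functions on an affine open subset of
`Spec R`; `covB R B` is the compositum of its finite étale covers.
-/

open IntermediateField

namespace Pool.Agent.Helper6.NP

open Pool.Agent.Helper1.SX Pool.Agent.SB

variable {k : Type} [Field k] {Ω : Type} [Field Ω] [Algebra k Ω]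

/-- the compositum of all connected finite étale covers of `Spec B`, `B` between `R` and its
fraction field; if `B` is normal then `π₁(Spec B) = Gal(K_B/K)` -/
def covB (R B : Subalgebra k Ω) : IntermediateField (ff R) Ω := adjoin (ff R) (etSet k B)

/-- the splitting condition for all rings `B` between `R` and its fraction field `K`: the field
`K_B` contains `kbar` and `Gal(K_B/K) → Gal(kbar/k)` has a continuous splitting -/
def SplitAll (R : Subalgebra k Ω) : Prop :=
  ∀ B : Subalgebra k Ω, R ≤ B → (∀ b ∈ B, b ∈ ff R) → (∀ θ : kbar k Ω, (θ : Ω) ∈ covB R B) ∧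
    ContSplit k (kbar k Ω) (ff R) (covB R B) (fun θ => (θ : Ω)) (fun z => (z : Ω))

theorem covB_normal (R B : Subalgebra k Ω) (hB : ∀ b ∈ B, b ∈ ff R)
    [Normal (ff R) Ω] : Normal (ff R) (covB R B) := by
  rw [IntermediateField.normal_iff_forall_map_le]
  intro σ
  unfold covB
  rw [IntermediateField.adjoin_map, IntermediateField.adjoin_le_iff]
  rintro y ⟨x, ⟨S, iS, iA, hfin, het, φ, s, rfl⟩, rfl⟩
  refine IntermediateField.subset_adjoin _ _ ?_
  let _ := iS
  let _ := iA
  refine ⟨S, iS, iA, hfin, het, { toRingHom := (σ : Ω →+* Ω).comp (φ : S →+* Ω), commutes' := ?_ },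
    s, rfl⟩
  intro b
  show σ (φ (algebraMap B S b)) = algebraMap B Ω b
  rw [φ.commutes]
  exact σ.commutes (⟨(b : Ω), hB b b.2⟩ : ff R)

theorem splitAll_of_strong (R : Subalgebra k Ω) [CharZero k] [IsAlgClosed Ω]
    (halg : Algebra.IsAlgebraic (ff R) Ω) (h : StrongSplitting R) : SplitAll R := by
  intro B hRB hB
  obtain ⟨s, hs, h1⟩ := h
  have hN : Normal (ff R) Ω := by
    have : IsAlgClosure (ff R) Ω := ⟨inferInstance, halg⟩
    exact IsAlgClosure.normal (ff R) Ω
  have hM := covB_normal R B hB
  refine ⟨fun θ => IntermediateField.subset_adjoin _ _ (kbar_subset_etSet k B θ), ?_⟩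
  refine ⟨(AlgEquiv.restrictNormalHom (covB R B)).comp s,
    (InfiniteGalois.restrictNormalHom_continuous (covB R B)).comp hs, ?_⟩
  intro γ θ z hz
  rw [← h1 γ θ z hz]
  exact AlgEquiv.restrictNormalHom_apply (covB R B) (s γ) z

theorem splitting_of_all (R : Subalgebra k Ω) (h : SplitAll R) : Splitting R := by
  intro g hg hg0
  obtain ⟨-, s, hs, h1⟩ := h (away R g) (fun x hx => Algebra.subset_adjoin (Or.inl hx)) (by
    intro b hb
    unfold away at hb
    induction hb using Algebra.adjoin_induction with
    | mem y hy =>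
      rcases hy with hy | hy
      · exact IntermediateField.subset_adjoin _ _ hy
      · rw [Set.mem_singleton_iff] at hy
        rw [hy]
        exact IntermediateField.inv_mem _ (IntermediateField.subset_adjoin _ _ hg)
    | algebraMap r => exact IntermediateField.algebraMap_mem _ r
    | add a b _ _ iha ihb => exact add_mem iha ihb
    | mul a b _ _ iha ihb => exact mul_mem iha ihb)
  exact ⟨s, hs, fun γ θ hθ => h1 γ θ ⟨θ, hθ⟩ rfl⟩

theorem strong_of_sec (R : Subalgebra k Ω) (h : StrongSec R) : StrongSplitting R := by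
  obtain ⟨s, hs, h1⟩ := h
  refine ⟨s, hs, ?_⟩
  rintro γ θ z rfl
  exact h1 γ θ

end Pool.Agent.Helper6.NP
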