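import Pool.Agent.Helper6.NP.Cr

set_option autoImplicit false

/-!
# NP-04: trace, invariants, norms of constants

Let `Tr s = ∑_{i<r-1} σ^i s`.  `trace_mem`: by linearity for `s = ζ^k`, `k < r - 1` (`exists_cr_basis`, `cr_pow_ze`): `Tr (ζ^0) = r - 1`, `Tr (ζ^k) = -1` for `0 < k < r` (`ze_sum_gen`).
`trace_one`: `Tr (-ζ) = 1` (`ze_sum_gen` with `k = 1`).
`inv_mem`: if `σ s = s` then `s = s Tr(-ζ) = Tr (s (-ζ))`, in `R` by `trace_mem`.
`Nm_mem`: `σ (Nm s) = Nm s` (`Finset.prod_range_succ` and `prod_range_succ'`, `σ^(r-1) = 1`).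
`Nm_const`: every factor is `x`.  `Nm_mul`: `Finset.prod_mul_distrib`.
-/

open Polynomial

namespace Pool.Agent.Helper6.NP

open Pool.Agent.Helper1.SX

variable (r : ℕ) [Fact r.Prime] (hr : r ≠ 2)

theorem Nm_const (R : Type) [CommRing R] (x : R) :
    Nm (cr r hr R) (algebraMap R (Cr r R) x) = algebraMap R (Cr r R) (x ^ (r - 1)) := by
  unfold Nm
  have h : ∀ i ∈ Finset.range (cr r hr R).d, ((cr r hr R).σ ^ i) (algebraMap R (Cr r R) x) =
      algebraMap R (Cr r R) x := fun i _ => ((cr r hr R).σ ^ i).commutes x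
  rw [Finset.prod_congr rfl h, Finset.prod_const, Finset.card_range, map_pow]
  rfl

theorem Nm_mul (R : Type) [CommRing R] (s t : Cr r R) :
    Nm (cr r hr R) (s * t) = Nm (cr r hr R) s * Nm (cr r hr R) t := by
  unfold Nm
  rw [← Finset.prod_mul_distrib]
  exact Finset.prod_congr rfl fun i _ => map_mul _ _ _

theorem isUnit_of_Nm (R : Type) [CommRing R] (s : Cr r R) (h : IsUnit (Nm (cr r hr R) s)) :
    IsUnit s := by
  unfold Nm at h
  have h2 := (cr r hr R).two
  have h0 : 0 ∈ Finset.range (cr r hr R).d := Finset.mem_range.mpr (by omega)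
  have h1 := Finset.dvd_prod_of_mem (fun i => ((cr r hr R).σ ^ i) s) h0
  exact isUnit_of_dvd_unit (by simpa using h1) h

theorem cr_inj (R : Type) [CommRing R] [Nontrivial R] :
    Function.Injective (algebraMap R (Cr r R)) := by
  obtain ⟨e, he⟩ := exists_cr_basis r R
  have : Module.Free R (Cr r R) := Module.Free.of_basis e
  have h2 := (Fact.out : r.Prime).two_le
  have : Nonempty (Fin (r - 1)) := ⟨⟨0, by omega⟩⟩
  have : Nontrivial (Cr r R) := e.repr.toEquiv.nontrivial
  exact FaithfulSMul.algebraMap_injective R (Cr r R)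

theorem Nm_inv (R : Type) [CommRing R] (s : Cr r R) :
    (cr r hr R).σ (Nm (cr r hr R) s) = Nm (cr r hr R) s := by
  have h2 := (cr r hr R).two
  obtain ⟨n, hn⟩ : ∃ n, (cr r hr R).d = n + 1 := ⟨(cr r hr R).d - 1, by omega⟩
  have hp := (cr r hr R).pow
  rw [hn] at hp
  unfold Nm
  rw [map_prod, hn]
  have h1 : ∀ i ∈ Finset.range (n + 1), (cr r hr R).σ (((cr r hr R).σ ^ i) s) =
      ((cr r hr R).σ ^ (i + 1)) s := by
    intro i _
    rw [pow_succ' (cr r hr R).σ i]
    rfl
  rw [Finset.prod_congr rfl h1, Finset.prod_range_succ, Finset.prod_range_succ', hp, pow_zero]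

theorem trace_one (R : Type) [CommRing R] :
    ∑ i ∈ Finset.range (r - 1), ((cr r hr R).σ ^ i) (-ze r R) = 1 := by
  have h1 : ∀ i ∈ Finset.range (r - 1), ((cr r hr R).σ ^ i) (-ze r R) =
      -(ze r R ^ (1 * gen r ^ i)) := by
    intro i _
    rw [map_neg, cr_pow_ze, one_mul]
  rw [Finset.sum_congr rfl h1, Finset.sum_neg_distrib, ze_sum_gen r R 1, neg_neg]
  rw [Nat.cast_one]
  exact one_ne_zero

theorem trace_mem (R : Type) [CommRing R] [Nontrivial R] (s : Cr r R) :
    ∃ x : R, ∑ i ∈ Finset.range (r - 1), ((cr r hr R).σ ^ i) s = algebraMap R (Cr r R) x := by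
  obtain ⟨e, he⟩ := exists_cr_basis r R
  have hb : ∀ k : Fin (r - 1), ∃ x : R, ∑ i ∈ Finset.range (r - 1), ((cr r hr R).σ ^ i) (e k) =
      algebraMap R (Cr r R) x := by
    intro k
    rw [he]
    by_cases hk : (k : ℕ) = 0
    · refine ⟨((r - 1 : ℕ) : R), ?_⟩
      rw [hk, pow_zero]
      simp
    · refine ⟨-1, ?_⟩
      have h1 : ∀ i ∈ Finset.range (r - 1), ((cr r hr R).σ ^ i) (ze r R ^ (k : ℕ)) =
          ze r R ^ ((k : ℕ) * gen r ^ i) := by
        intro i _
        rw [map_pow, cr_pow_ze, ← pow_mul, mul_comm]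
      rw [Finset.sum_congr rfl h1, ze_sum_gen, map_neg, map_one]
      intro h0
      rw [ZMod.natCast_eq_zero_iff] at h0
      have h2 := Nat.le_of_dvd (by omega) h0
      have h3 := k.2
      omega
  choose c hc using hb
  refine ⟨∑ k, e.repr s k * c k, ?_⟩
  conv_lhs => rw [← e.sum_repr s]
  simp only [map_sum, map_smul]
  rw [Finset.sum_comm]
  refine Finset.sum_congr rfl fun k _ => ?_
  rw [← Finset.smul_sum, hc, map_mul, Algebra.smul_def]

theorem inv_mem (R : Type) [CommRing R] [Nontrivial R]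
    (s : Cr r R) (hs : (cr r hr R).σ s = s) : ∃ x : R, s = algebraMap R (Cr r R) x := by
  have h1 : ∀ i : ℕ, ((cr r hr R).σ ^ i) s = s := by
    intro i
    induction i with
    | zero => rfl
    | succ i ih =>
      rw [pow_succ' (cr r hr R).σ i]
      show (cr r hr R).σ (((cr r hr R).σ ^ i) s) = s
      rw [ih, hs]
  obtain ⟨x, hx⟩ := trace_mem r hr R (s * -ze r R)
  refine ⟨x, ?_⟩
  rw [← hx]
  have h2 : ∀ i ∈ Finset.range (r - 1), ((cr r hr R).σ ^ i) (s * -ze r R) =
      s * ((cr r hr R).σ ^ i) (-ze r R) := by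
    intro i _
    rw [map_mul, h1]
  rw [Finset.sum_congr rfl h2, ← Finset.mul_sum, trace_one, mul_one]

theorem Nm_mem (R : Type) [CommRing R] [Nontrivial R]
    (s : Cr r R) : ∃ x : R, Nm (cr r hr R) s = algebraMap R (Cr r R) x :=
  inv_mem r hr R _ (Nm_inv r hr R s)

end Pool.Agent.Helper6.NP
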