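import Pool.Agent.Helper6.NP.CrGal
import Pool.Agent.Helper6.NP.CrInv
import Pool.Agent.Helper1.SX.CycAz
import Pool.Agent.Helper1.SX.CycMaps
import Pool.Agent.Helper1.SX.CycField
import Pool.Agent.Helper8.BR.Group

set_option autoImplicit false

/-!
# NP-10: the classes `(x, χ_r)`
-/

open Polynomial
open scoped TensorProduct

namespace Pool.Agent.Helper6.NP

open Pool.Agent.Helper1.SX Pool.Agent.Helper8.BR

variable (r : ℕ) [Fact r.Prime] (hr : r ≠ 2)

theorem isUnit_r (R : Type) [CommRing R] [Algebra ℚ R] : IsUnit (r : R) := by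
  have h : (r : ℚ) ≠ 0 := by exact_mod_cast (Fact.out : r.Prime).ne_zero
  have h1 := (isUnit_iff_ne_zero.mpr h).map (algebraMap ℚ R)
  simpa using h1

/-- `Cr r R` is free -/
theorem cr_free (R : Type) [CommRing R] [Nontrivial R] : Module.Free R (Cr r R) :=
  Module.Free.of_basis (exists_cr_basis r R).choose

/-- the class of the cyclic algebra `(x, χ_r)` -/
noncomputable def brr (R : Type) [CommRing R] [Nontrivial R] [Algebra ℚ R] (x : Rˣ) : Br R :=
  have := cr_free r R
  have := ca_azumaya (cr r hr R) (cr_galC r hr R (isUnit_r r R)) (x : R) x.isUnit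
  Br.mk R (CA (cr r hr R) (x : R))

theorem brr_map {R R' : Type} [CommRing R] [Nontrivial R] [Algebra ℚ R] [CommRing R']
    [Nontrivial R'] [Algebra ℚ R'] (f : R →+* R') (x : Rˣ) :
    Br.map f (brr r hr R x) = brr r hr R' (Units.map (f : R →* R') x) := by
  let _ := f.toAlgebra
  have := cr_free r R
  have := ca_azumaya (cr r hr R) (cr_galC r hr R (isUnit_r r R)) (x : R) x.isUnit
  have := cr_free r R'
  have := ca_azumaya (cr r hr R') (cr_galC r hr R' (isUnit_r r R'))
    ((Units.map (f : R →* R') x : R'ˣ) : R') (Units.map (f : R →* R') x).isUnit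
  have h0 : f = algebraMap R R' := rfl
  unfold brr
  rw [h0]
  refine (Br.map_mk_eq_iff R R' _ _).mpr ?_
  obtain ⟨ψ, h1, h2, h3⟩ := exists_crMap r hr f
  obtain ⟨e, he⟩ := exists_cr_basis r R
  obtain ⟨e', he'⟩ := exists_cr_basis r R'
  have h4 : ∀ i, ψ (e i) = e' i := fun i => by rw [he, he', map_pow, h1]
  obtain ⟨E⟩ := ca_baseChange (cr r hr R) (cr r hr R') rfl ψ h2 h3 e e' h4 (x : R)
  exact BrEq.of_algEquiv E

theorem brr_norm {R : Type} [CommRing R] [Nontrivial R] [Algebra ℚ R] (x y : Rˣ)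
    (m : Cr r R) (hm : IsUnit m) (hy : Nm (cr r hr R) m = algebraMap R (Cr r R) (y : R)) :
    brr r hr R (x * y) = brr r hr R x := by
  have := cr_free r R
  have := ca_azumaya (cr r hr R) (cr_galC r hr R (isUnit_r r R)) (x : R) x.isUnit
  have := ca_azumaya (cr r hr R) (cr_galC r hr R (isUnit_r r R)) ((x * y : Rˣ) : R)
    (x * y).isUnit
  unfold brr
  refine (Br.mk_eq_iff R _ _).mpr ?_
  obtain ⟨E⟩ := ca_norm (cr r hr R) (x : R) (y : R) m hm hy
  exact BrEq.of_algEquiv E

theorem brr_field {K : Type} [Field K] [Algebra ℚ K]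
    (hK : Irreducible (cyclotomic r K)) (a b : Kˣ)
    (h : brr r hr K a = brr r hr K b) :
    ∃ c : Cr r K, c ≠ 0 ∧
      algebraMap K (Cr r K) (a : K) = algebraMap K (Cr r K) (b : K) * Nm (cr r hr K) c := by
  have := cr_free r K
  have := ca_azumaya (cr r hr K) (cr_galC r hr K (isUnit_r r K)) (a : K) a.isUnit
  have := ca_azumaya (cr r hr K) (cr_galC r hr K (isUnit_r r K)) (b : K) b.isUnit
  unfold brr at h
  have h1 := (Br.mk_eq_iff K _ _).mp h
  have : Fact (Irreducible (cyclotomic r K)) := ⟨hK⟩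
  exact ca_field (M := AdjoinRoot (cyclotomic r K)) (cr r hr K)
    (cr_galC r hr K (isUnit_r r K)) (a : K) (b : K) a.ne_zero b.ne_zero h1

end Pool.Agent.Helper6.NP
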