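import Mathlib

set_option autoImplicit false

/-!
# NP-01: a primitive root modulo `r`

PROOF.  `(ZMod r)ˣ` is cyclic of order `r - 1`; take a generator `x`, `g = (x : ZMod r).val`.  `orderOf x = r - 1` (`orderOf_eq_card_of_forall_mem_zpowers`, `ZMod.card_units`), so
`g ^ s = 1` iff `r - 1 ∣ s` (`orderOf_dvd_iff_pow_eq_one`), and every unit is `x ^ s` with `s < r - 1` (`mem_powers_iff_mem_range_orderOf`-style / `IsCyclic`).
-/

namespace Pool.Agent.Helper6.NP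

theorem exists_gen (r : ℕ) [Fact r.Prime] : ∃ g : ℕ, (∀ s : ℕ, (g : ZMod r) ^ s = 1 ↔ r - 1 ∣ s) ∧
    ∀ a : ZMod r, a ≠ 0 → ∃ s : ℕ, s < r - 1 ∧ a = (g : ZMod r) ^ s := by
  obtain ⟨x, hx⟩ := IsCyclic.exists_generator (α := (ZMod r)ˣ)
  have hord : orderOf x = r - 1 := by
    rw [orderOf_eq_card_of_forall_mem_zpowers hx, Nat.card_eq_fintype_card, ZMod.card_units]
  have hr : 0 < r - 1 := by
    have := (Fact.out : r.Prime).two_le
    omega
  have hg : (((x : ZMod r).val : ℕ) : ZMod r) = (x : ZMod r) := ZMod.natCast_zmod_val _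
  refine ⟨(x : ZMod r).val, fun s => ?_, fun a ha => ?_⟩
  · rw [hg, ← hord, orderOf_dvd_iff_pow_eq_one, ← Units.val_pow_eq_pow_val, Units.val_eq_one]
  · have h1 := hx (Units.mk0 a ha)
    obtain ⟨k, hk⟩ := (Submonoid.mem_powers_iff _ _).1 (mem_powers_iff_mem_zpowers.2 h1)
    refine ⟨k % (r - 1), Nat.mod_lt _ hr, ?_⟩
    have h2 : x ^ (k % (r - 1)) = Units.mk0 a ha := by
      rw [← hord, pow_mod_orderOf, hk]
    rw [hg, ← Units.val_pow_eq_pow_val, h2]
    rfl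

/-- a primitive root modulo the prime `r` -/
noncomputable def gen (r : ℕ) [Fact r.Prime] : ℕ := (exists_gen r).choose

theorem gen_pow (r : ℕ) [Fact r.Prime] (s : ℕ) : (gen r : ZMod r) ^ s = 1 ↔ r - 1 ∣ s :=
  (exists_gen r).choose_spec.1 s

theorem gen_surj (r : ℕ) [Fact r.Prime] (a : ZMod r) (ha : a ≠ 0) :
    ∃ s : ℕ, s < r - 1 ∧ a = (gen r : ZMod r) ^ s :=
  (exists_gen r).choose_spec.2 a ha

end Pool.Agent.Helper6.NP
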