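import Pool.Agent.Helper1.SX.CycDefs
import Pool.Agent.Helper6.NP.Gen

set_option autoImplicit false

/-!
# NP-02: the cyclotomic rings `Cr r R = R[X] / Φ_r`, `r` a prime number

`ze_sum`: `Φ_r = 1 + X + ... + X^(r-1)` (`Polynomial.cyclotomic_prime`), `ze_pow`: `X^r - 1 = (X - 1) Φ_r`.
`exists_sg`: `ζ ↦ ζ^g` is well defined: `Φ_r(ζ^g) = ∑_{i<r} ζ^(g i) = ∑_{j : ZMod r} ζ^(j.val) = 0` (multiplication with `g` permutes `ZMod r`: `gen_pow`, `g ≠ 0` mod `r`; `ζ^k` only depends on `k` mod `r`);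
`AdjoinRoot.liftAlgHom`; `σ^i ζ = ζ^(g^i)` and `g^(r-1) = 1` mod `r`, so `σ^(r-1) = id` (`AdjoinRoot.algHom_ext`); hence an equivalence (`AlgEquiv.ofAlgHom` with `σ^(r-2)`-style inverse; `r` odd, so `r - 1 ≥ 2`).
`exists_cr_basis`: `AdjoinRoot.powerBasis'` (`cyclotomic.monic`), degree `φ(r) = r - 1`.
`exists_crMap`: `AdjoinRoot.lift` / `AdjoinRoot.map` along `f` (`map_cyclotomic`).
-/

open Polynomial

namespace Pool.Agent.Helper6.NP

open Pool.Agent.Helper1.SX

/-- the cyclotomic ring -/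
abbrev Cr (r : ℕ) (R : Type) [CommRing R] : Type := AdjoinRoot (cyclotomic r R)

/-- the root of unity -/
noncomputable abbrev ze (r : ℕ) (R : Type) [CommRing R] : Cr r R :=
  AdjoinRoot.root (cyclotomic r R)

section

variable (r : ℕ) [Fact r.Prime]

theorem ze_sum (R : Type) [CommRing R] : ∑ i ∈ Finset.range r, ze r R ^ i = 0 := by
  have h : AdjoinRoot.mk (cyclotomic r R) (∑ i ∈ Finset.range r, X ^ i) = 0 := by
    rw [← cyclotomic_prime R r]
    exact AdjoinRoot.mk_self
  rw [map_sum] at h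
  simpa only [map_pow, AdjoinRoot.mk_X] using h

theorem ze_pow (R : Type) [CommRing R] : ze r R ^ r = 1 := by
  have h := mul_geom_sum (ze r R) r
  rw [ze_sum, mul_zero] at h
  exact (sub_eq_zero.1 h.symm)

theorem ze_pow_eq (R : Type) [CommRing R] (a b : ℕ) (h : (a : ZMod r) = b) :
    ze r R ^ a = ze r R ^ b := by
  exact pow_eq_pow_of_modEq ((ZMod.natCast_eq_natCast_iff a b r).1 h) (ze_pow r R)

private theorem cr_sum_zmod (R : Type) [CommRing R] :
    ∑ a : ZMod r, ze r R ^ a.val = 0 := by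
  rw [← ze_sum r R]
  have hr : 0 < r := (Fact.out : r.Prime).pos
  refine Finset.sum_bij (fun a _ => a.val) ?_ ?_ ?_ ?_
  · intro a _
    exact Finset.mem_range.2 (ZMod.val_lt a)
  · intro a _ b _ h
    exact ZMod.val_injective r h
  · intro i hi
    exact ⟨(i : ZMod r), Finset.mem_univ _, ZMod.val_cast_of_lt (Finset.mem_range.1 hi)⟩
  · intro a _
    rfl

private theorem cr_pow_val (R : Type) [CommRing R] (a : ℕ) :
    ze r R ^ (a : ZMod r).val = ze r R ^ a := by
  apply ze_pow_eq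
  rw [ZMod.natCast_val, ZMod.cast_id', id]

private theorem cr_gen_ne : (gen r : ZMod r) ≠ 0 := by
  intro h
  have h1 := (gen_pow r (r - 1)).2 dvd_rfl
  have h2 := (Fact.out : r.Prime).two_le
  rw [h, zero_pow (by omega)] at h1
  exact zero_ne_one h1

private theorem cr_inj {i j : ℕ} (hij : i ≤ j) (hj : j < r - 1)
    (h2 : (gen r : ZMod r) ^ i = (gen r : ZMod r) ^ j) : i = j := by
  have h3 : (gen r : ZMod r) ^ (j - i) = 1 := by
    have h4 : (gen r : ZMod r) ^ i * (gen r : ZMod r) ^ (j - i) =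
        (gen r : ZMod r) ^ i * 1 := by
      rw [← pow_add, Nat.add_sub_cancel' hij, mul_one, h2]
    exact mul_left_cancel₀ (pow_ne_zero _ (cr_gen_ne r)) h4
  have h5 := Nat.eq_zero_of_dvd_of_lt ((gen_pow r _).1 h3) (by omega)
  omega

/-- the sum over all residue classes except zero -/
theorem ze_sum_gen (R : Type) [CommRing R] (k : ℕ) (hk : (k : ZMod r) ≠ 0) :
    ∑ i ∈ Finset.range (r - 1), ze r R ^ (k * gen r ^ i) = -1 := by
  have h0 := cr_sum_zmod r R
  have h1 : ∑ a ∈ (Finset.univ : Finset (ZMod r)).erase 0, ze r R ^ a.val = -1 := by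
    rw [← Finset.add_sum_erase _ _ (Finset.mem_univ (0 : ZMod r)), ZMod.val_zero, pow_zero] at h0
    linear_combination h0
  rw [← h1]
  refine Finset.sum_bij (fun i _ => ((k * gen r ^ i : ℕ) : ZMod r)) ?_ ?_ ?_ ?_
  · intro i _
    rw [Finset.mem_erase, Nat.cast_mul, Nat.cast_pow]
    exact ⟨mul_ne_zero hk (pow_ne_zero _ (cr_gen_ne r)), Finset.mem_univ _⟩
  · intro i hi j hj h
    rw [Nat.cast_mul, Nat.cast_pow, Nat.cast_mul, Nat.cast_pow] at h
    have h2 := mul_left_cancel₀ hk h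
    rw [Finset.mem_range] at hi hj
    rcases le_total i j with hij | hij
    · exact cr_inj r hij hj h2
    · exact (cr_inj r hij hi h2.symm).symm
  · intro a ha
    have ha0 : a ≠ 0 := (Finset.mem_erase.1 ha).1
    obtain ⟨s, hs, h2⟩ := gen_surj r ((k : ZMod r)⁻¹ * a) (mul_ne_zero (inv_ne_zero hk) ha0)
    refine ⟨s, Finset.mem_range.2 hs, ?_⟩
    rw [Nat.cast_mul, Nat.cast_pow, ← h2, ← mul_assoc, mul_inv_cancel₀ hk, one_mul]
  · intro i _
    exact (cr_pow_val r R _).symm

private theorem cr_eval (R : Type) [CommRing R] :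
    (cyclotomic r R).eval₂ (algebraMap R (Cr r R)) (ze r R ^ gen r) = 0 := by
  refine (congrArg (eval₂ (algebraMap R (Cr r R)) (ze r R ^ gen r))
    (cyclotomic_prime R r)).trans ?_
  rw [eval₂_finsetSum]
  simp only [eval₂_pow, eval₂_X]
  have h0 := cr_sum_zmod r R
  rw [← h0]
  have h1 : ∑ i ∈ Finset.range r, (ze r R ^ gen r) ^ i =
      ∑ a : ZMod r, (ze r R ^ gen r) ^ a.val := by
    symm
    refine Finset.sum_bij (fun a _ => a.val) ?_ ?_ ?_ ?_
    · intro a _
      exact Finset.mem_range.2 (ZMod.val_lt a)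
    · intro a _ b _ h
      exact ZMod.val_injective r h
    · intro i hi
      exact ⟨(i : ZMod r), Finset.mem_univ _, ZMod.val_cast_of_lt (Finset.mem_range.1 hi)⟩
    · intro a _
      rfl
  rw [h1]
  refine Finset.sum_bij (fun a _ => (gen r : ZMod r) * a) ?_ ?_ ?_ ?_
  · intro a _
    exact Finset.mem_univ _
  · intro a _ b _ h
    exact mul_left_cancel₀ (cr_gen_ne r) h
  · intro a _
    refine ⟨(gen r : ZMod r)⁻¹ * a, Finset.mem_univ _, ?_⟩
    rw [← mul_assoc, mul_inv_cancel₀ (cr_gen_ne r), one_mul]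
  · intro a _
    rw [← pow_mul]
    apply ze_pow_eq
    rw [Nat.cast_mul, ZMod.natCast_val, ZMod.natCast_val, ZMod.cast_id', id, id]

private noncomputable def crHom (R : Type) [CommRing R] : Cr r R →ₐ[R] Cr r R :=
  AdjoinRoot.liftAlgHom (cyclotomic r R) (Algebra.ofId R (Cr r R)) (ze r R ^ gen r)
    (cr_eval r R)

private theorem crHom_ze (R : Type) [CommRing R] : crHom r R (ze r R) = ze r R ^ gen r :=
  AdjoinRoot.liftAlgHom_root _ _ _ _

private theorem crHom_pow_ze (R : Type) [CommRing R] (n : ℕ) :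
    (crHom r R ^ n) (ze r R) = ze r R ^ (gen r ^ n) := by
  induction n with
  | zero => simp
  | succ n ih =>
    rw [pow_succ, AlgHom.mul_apply, crHom_ze, map_pow, ih, ← pow_mul, ← pow_succ]

private theorem crHom_pow (R : Type) [CommRing R] : crHom r R ^ (r - 1) = 1 := by
  apply AdjoinRoot.algHom_ext
  rw [crHom_pow_ze, AlgHom.one_apply]
  conv_rhs => rw [← pow_one (AdjoinRoot.root (cyclotomic r R))]
  apply ze_pow_eq
  rw [Nat.cast_pow, Nat.cast_one]
  exact (gen_pow r (r - 1)).2 dvd_rfl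

theorem exists_sg (hr : r ≠ 2) (R : Type) [CommRing R] : ∃ σ : Cr r R ≃ₐ[R] Cr r R,
    σ (ze r R) = ze r R ^ gen r ∧ σ ^ (r - 1) = 1 := by
  have h2 := (Fact.out : r.Prime).two_le
  have h3 : r - 1 = (r - 2) + 1 := by omega
  have hc1 : (crHom r R).comp (crHom r R ^ (r - 2)) = AlgHom.id R (Cr r R) := by
    have h4 := crHom_pow r R
    rw [h3, pow_succ'] at h4
    exact h4
  have hc2 : (crHom r R ^ (r - 2)).comp (crHom r R) = AlgHom.id R (Cr r R) := by
    have h4 := crHom_pow r R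
    rw [h3, pow_succ] at h4
    exact h4
  refine ⟨AlgEquiv.ofAlgHom (crHom r R) (crHom r R ^ (r - 2)) hc1 hc2, crHom_ze r R, ?_⟩
  have h5 : ∀ (n : ℕ) (x : Cr r R), ((AlgEquiv.ofAlgHom (crHom r R) (crHom r R ^ (r - 2))
      hc1 hc2) ^ n) x = (crHom r R ^ n) x := by
    intro n
    induction n with
    | zero => intro x; rfl
    | succ n ih =>
      intro x
      rw [pow_succ, pow_succ, AlgEquiv.mul_apply, AlgHom.mul_apply, ih]
      rfl
  ext x
  rw [h5, crHom_pow]
  rfl

/-- the cyclotomic data -/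
noncomputable def cr (hr : r ≠ 2) (R : Type) [CommRing R] : Cyc R (Cr r R) where
  d := r - 1
  two := by
    have h := (Fact.out : r.Prime).two_le
    omega
  σ := (exists_sg r hr R).choose
  pow := (exists_sg r hr R).choose_spec.2

theorem cr_d (hr : r ≠ 2) (R : Type) [CommRing R] : (cr r hr R).d = r - 1 := rfl

theorem cr_ze (hr : r ≠ 2) (R : Type) [CommRing R] :
    (cr r hr R).σ (ze r R) = ze r R ^ gen r :=
  (exists_sg r hr R).choose_spec.1

theorem cr_pow_ze (hr : r ≠ 2) (R : Type) [CommRing R] (i : ℕ) :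
    ((cr r hr R).σ ^ i) (ze r R) = ze r R ^ (gen r ^ i) := by
  induction i with
  | zero => simp
  | succ i ih =>
    rw [pow_succ, AlgEquiv.mul_apply, cr_ze, map_pow, ih, ← pow_mul, ← pow_succ]

theorem exists_cr_basis (R : Type) [CommRing R] [Nontrivial R] :
    ∃ e : Module.Basis (Fin (r - 1)) R (Cr r R), ∀ k, e k = ze r R ^ (k : ℕ) := by
  have hd : (AdjoinRoot.powerBasis' (cyclotomic.monic r R)).dim = r - 1 := by
    rw [AdjoinRoot.powerBasis'_dim, natDegree_cyclotomic, Nat.totient_prime Fact.out]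
  refine ⟨(AdjoinRoot.powerBasis' (cyclotomic.monic r R)).basis.reindex (finCongr hd), ?_⟩
  intro k
  rw [Module.Basis.reindex_apply, PowerBasis.basis_eq_pow, AdjoinRoot.powerBasis'_gen]
  rfl

theorem exists_crMap (hr : r ≠ 2) {R R' : Type} [CommRing R] [CommRing R'] (f : R →+* R') :
    ∃ ψ : Cr r R →+* Cr r R', ψ (ze r R) = ze r R' ∧
      (∀ x : R, ψ (algebraMap R (Cr r R) x) = algebraMap R' (Cr r R') (f x)) ∧
      ∀ s, ψ ((cr r hr R).σ s) = (cr r hr R').σ (ψ s) := by
  have hdvd : cyclotomic r R' ∣ (cyclotomic r R).map f := by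
    rw [map_cyclotomic]
  refine ⟨AdjoinRoot.map f (cyclotomic r R) (cyclotomic r R') hdvd, AdjoinRoot.map_root _ _ _ _,
    fun x => AdjoinRoot.map_of _ _ _ _ _, ?_⟩
  have h1 : (AdjoinRoot.map f (cyclotomic r R) (cyclotomic r R') hdvd).comp
      ((cr r hr R).σ : Cr r R →+* Cr r R) =
      ((cr r hr R').σ : Cr r R' →+* Cr r R').comp
        (AdjoinRoot.map f (cyclotomic r R) (cyclotomic r R') hdvd) := by
    apply AdjoinRoot.ringHom_ext
    · ext x
      simp only [RingHom.comp_apply]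
      have h2 : ((cr r hr R).σ : Cr r R →+* Cr r R) (AdjoinRoot.of (cyclotomic r R) x) =
          AdjoinRoot.of (cyclotomic r R) x := (cr r hr R).σ.commutes x
      have h3 : ((cr r hr R').σ : Cr r R' →+* Cr r R') (AdjoinRoot.of (cyclotomic r R') (f x)) =
          AdjoinRoot.of (cyclotomic r R') (f x) := (cr r hr R').σ.commutes (f x)
      rw [h2, AdjoinRoot.map_of, h3]
    · simp only [RingHom.comp_apply]
      have h2 : ((cr r hr R).σ : Cr r R →+* Cr r R) (AdjoinRoot.root (cyclotomic r R)) =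
          AdjoinRoot.root (cyclotomic r R) ^ gen r := cr_ze r hr R
      have h3 : ((cr r hr R').σ : Cr r R' →+* Cr r R') (AdjoinRoot.root (cyclotomic r R')) =
          AdjoinRoot.root (cyclotomic r R') ^ gen r := cr_ze r hr R'
      rw [h2, map_pow, AdjoinRoot.map_root, h3]
  intro s
  exact DFunLike.congr_fun h1 s

theorem map_Nm (hr : r ≠ 2) {R R' : Type} [CommRing R] [CommRing R']
    (ψ : Cr r R →+* Cr r R') (h : ∀ s, ψ ((cr r hr R).σ s) = (cr r hr R').σ (ψ s))
    (s : Cr r R) : ψ (Nm (cr r hr R) s) = Nm (cr r hr R') (ψ s) := by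
  have h1 : ∀ (i : ℕ) (s : Cr r R), ψ (((cr r hr R).σ ^ i) s) = ((cr r hr R').σ ^ i) (ψ s) := by
    intro i
    induction i with
    | zero => intro s; rfl
    | succ i ih =>
      intro s
      rw [pow_succ, pow_succ, AlgEquiv.mul_apply, AlgEquiv.mul_apply, ih, h]
  unfold Nm
  rw [map_prod, cr_d, cr_d]
  exact Finset.prod_congr rfl fun i _ => h1 i s

end

end Pool.Agent.Helper6.NP
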