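import Pool.Agent.Helper6.NP.CrInv

set_option autoImplicit false

/-!
# NP-05: norms over finite prime fields

`p ≠ r` primes, `K = ZMod p`, `u ∈ K^*`.  CLAIM: `Nm c = u` for some `c ∈ Cr r K`.
PROOF.  Let `P` be a monic irreducible factor of `Φ_r` over `K`, `k' = AdjoinRoot P`, a finite field, `θ` its root, `θ^r = 1`, `θ ≠ 1` (`Φ_r(1) = r ≠ 0` in `K`), so `θ` is a primitive `r`-th root of unity.  Let `t ∈ k'` with
`Algebra.norm K t = u` (`FiniteField.norm_surjective` or similar), `t = g₀(θ)`.  `Φ_r` is separable (`separable_cyclotomic`), so `P` and `Q = Φ_r / P` are coprime and there is `h ∈ K[X]` with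
`h = g₀ mod P`, `h = 1 mod Q`.  Put `c = h(ζ) = AdjoinRoot.mk _ h`.  Let `φ : Cr r K → k'`, `ζ ↦ θ`.  `φ (Nm c) = ∏_{i<r-1} h(θ^(g^i))` (`cr_pow_ze`).  The `θ^(g^i)`, `i < r - 1`, are the
nontrivial `r`-th roots of unity in `k'`, all distinct (`gen_pow`, `gen_surj`).  If `Q(θ^(g^i)) = 0`, then `h(θ^(g^i)) = 1`.  Otherwise `P(θ^(g^i)) = 0` (`Φ_r(θ^(g^i)) = 0`), and there is a
unique `τ ∈ Gal(k'/K)` with `τ θ = θ^(g^i)` (`k' = K(θ)`), `h(θ^(g^i)) = τ(h(θ)) = τ(t)`.  Conversely `τ θ` is a nontrivial `r`-th root of unity and a root of `P`.  So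
`φ (Nm c) = ∏_{τ} τ(t) = Algebra.norm K t = u` (`Algebra.norm_eq_prod_automorphisms`; `k'/K` is Galois).  `Nm c ∈ K` (`Nm_mem`) and `φ` is injective on `K`: `Nm c = u`.
-/

open Polynomial

namespace Pool.Agent.Helper6.NP

open Pool.Agent.Helper1.SX

theorem nm_zmod (r : ℕ) [Fact r.Prime] (hr : r ≠ 2) (p : ℕ) [Fact p.Prime] (hp : p ≠ r)
    (u : ZMod p) (hu : u ≠ 0) :
    ∃ c : Cr r (ZMod p), Nm (cr r hr (ZMod p)) c = algebraMap (ZMod p) (Cr r (ZMod p)) u := by
  classical
  have hrp : r.Prime := Fact.out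
  have hpp : p.Prime := Fact.out
  have hr0 : (r : ZMod p) ≠ 0 := by
    intro h
    rw [ZMod.natCast_eq_zero_iff] at h
    exact hp ((Nat.prime_dvd_prime_iff_eq hpp hrp).1 h)
  have hp0 : (p : ZMod r) ≠ 0 := by
    intro h
    rw [ZMod.natCast_eq_zero_iff] at h
    exact hp ((Nat.prime_dvd_prime_iff_eq hrp hpp).1 h).symm
  have hne : NeZero (r : ZMod p) := ⟨hr0⟩
  have hdeg : (cyclotomic r (ZMod p)).natDegree = r - 1 := by
    rw [natDegree_cyclotomic, Nat.totient_prime hrp]
  have h2 := hrp.two_le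
  obtain ⟨P, hPirr, Q, hPQ⟩ : ∃ P, Irreducible P ∧ P ∣ cyclotomic r (ZMod p) := by
    refine WfDvdMonoid.exists_irreducible_factor ?_ (cyclotomic_ne_zero r _)
    intro h
    have := natDegree_eq_zero_of_isUnit h
    omega
  have hF : Fact (Irreducible P) := ⟨hPirr⟩
  let L := AdjoinRoot P
  let θ : L := AdjoinRoot.root P
  have hPB : Module.Finite (ZMod p) L := (AdjoinRoot.powerBasis hPirr.ne_zero).finite
  have hfin : Finite L := Module.finite_of_finite (ZMod p)
  have hθP : aeval θ P = 0 := by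
    rw [AdjoinRoot.aeval_eq]
    exact AdjoinRoot.mk_self
  have hθΦ : aeval θ (cyclotomic r (ZMod p)) = 0 := by
    rw [hPQ, map_mul, hθP, zero_mul]
  have hNL : NeZero (r : L) := ⟨by
    rw [← map_natCast (algebraMap (ZMod p) L)]
    exact (_root_.map_ne_zero _).2 hr0⟩
  have hprim : IsPrimitiveRoot θ r := by
    rw [← isRoot_cyclotomic_iff, IsRoot.def, ← map_cyclotomic r (algebraMap (ZMod p) L),
      eval_map_algebraMap]
    exact hθΦ
  have hmod : ∀ a b : ℕ, (a : ZMod r) = b → θ ^ a = θ ^ b := fun a b h =>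
    pow_eq_pow_of_modEq ((ZMod.natCast_eq_natCast_iff a b r).1 h) hprim.pow_eq_one
  have hmod' : ∀ a b : ℕ, θ ^ a = θ ^ b → (a : ZMod r) = b := by
    intro a b h
    rw [ZMod.natCast_eq_natCast_iff]
    have h1 : ∀ n : ℕ, θ ^ (n % r) = θ ^ n := fun n =>
      hmod _ _ (by rw [ZMod.natCast_mod])
    refine hprim.pow_inj (Nat.mod_lt _ hrp.pos) (Nat.mod_lt _ hrp.pos) ?_
    rw [h1, h1, h]
  obtain ⟨t, ht⟩ := FiniteField.norm_surjective (ZMod p) L u
  have ht2 := FiniteField.algebraMap_norm_eq_prod_pow (ZMod p) L t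
  rw [ht, Nat.card_zmod] at ht2
  obtain ⟨g0, hg0⟩ := AdjoinRoot.mk_surjective t
  have hcop : IsCoprime P Q := by
    have h := separable_cyclotomic r (ZMod p)
    rw [hPQ] at h
    exact h.isCoprime
  obtain ⟨a, b, hab⟩ := hcop
  let h := g0 * (b * Q) + a * P
  have hh : aeval θ h = t := by
    have e1 : aeval θ (b * Q) = 1 := by
      have : b * Q = 1 - a * P := by rw [← hab]; ring
      rw [this, map_sub, map_one, map_mul, hθP, mul_zero, sub_zero]
    change aeval θ (g0 * (b * Q) + a * P) = t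
    rw [map_add, map_mul, e1, map_mul, hθP, mul_one, mul_zero, add_zero, AdjoinRoot.aeval_eq, hg0]
  have hh1 : ∀ x : L, aeval x Q = 0 → aeval x h = 1 := by
    intro x hx
    have e1 : aeval x (a * P) = 1 := by
      have : a * P = 1 - b * Q := by rw [← hab]; ring
      rw [this, map_sub, map_one, map_mul, hx, mul_zero, sub_zero]
    change aeval x (g0 * (b * Q) + a * P) = 1
    rw [map_add, e1, map_mul, map_mul, hx, mul_zero, mul_zero, zero_add]
  -- the map
  let φ : Cr r (ZMod p) →ₐ[ZMod p] L :=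
    AdjoinRoot.liftAlgHom (cyclotomic r (ZMod p)) (Algebra.ofId _ L) θ hθΦ
  have hφζ : φ (ze r (ZMod p)) = θ := AdjoinRoot.liftAlgHom_root _ _ _ _
  let c : Cr r (ZMod p) := aeval (ze r (ZMod p)) h
  have haev : ∀ (τ : Cr r (ZMod p) ≃ₐ[ZMod p] Cr r (ZMod p)) (x : Cr r (ZMod p)) (q : (ZMod p)[X]),
      τ (aeval x q) = aeval (τ x) q := fun τ x q =>
    (aeval_algHom_apply (τ : Cr r (ZMod p) →ₐ[ZMod p] Cr r (ZMod p)) x q).symm
  have hφi : ∀ i, φ (((cr r hr (ZMod p)).σ ^ i) c) = aeval (θ ^ (gen r ^ i)) h := by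
    intro i
    have e1 : ((cr r hr (ZMod p)).σ ^ i) c =
        aeval (((cr r hr (ZMod p)).σ ^ i) (ze r (ZMod p))) h := haev _ _ _
    rw [e1, cr_pow_ze, ← aeval_algHom_apply, map_pow, hφζ]
  -- the indices
  have hidx : ∀ j : ℕ, ∃ s, s < r - 1 ∧ ((p ^ j : ℕ) : ZMod r) = (gen r : ZMod r) ^ s := by
    intro j
    refine gen_surj r _ ?_
    rw [Nat.cast_pow]
    exact pow_ne_zero _ hp0
  choose I hI1 hI2 using hidx
  have hθI : ∀ j, θ ^ (gen r ^ I j) = θ ^ (p ^ j) := fun j =>
    hmod _ _ (by rw [hI2 j, Nat.cast_pow])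
  have hfrob : ∀ (j : ℕ) (x : L), ((FiniteField.frobeniusAlgEquivOfAlgebraic (ZMod p) L) ^ j) x =
      x ^ (p ^ j) := by
    intro j x
    rw [AlgEquiv.coe_pow, FiniteField.coe_frobeniusAlgEquivOfAlgebraic_iterate, ZMod.card]
  have hfa : ∀ (j : ℕ), aeval (θ ^ (p ^ j)) h = t ^ (p ^ j) := by
    intro j
    rw [← hfrob j θ, ← hfrob j t, ← hh]
    exact aeval_algHom_apply (((FiniteField.frobeniusAlgEquivOfAlgebraic (ZMod p) L) ^ j :
      L ≃ₐ[ZMod p] L) : L →ₐ[ZMod p] L) _ _
  have hbij := FiniteField.bijective_frobeniusAlgEquivOfAlgebraic_pow (ZMod p) L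
  have hext : ∀ τ τ' : L ≃ₐ[ZMod p] L, τ θ = τ' θ → τ = τ' := by
    intro τ τ' hτ
    have e1 : (τ : L →ₐ[ZMod p] L) = (τ' : L →ₐ[ZMod p] L) := AdjoinRoot.algHom_ext hτ
    exact AlgEquiv.ext fun x => DFunLike.congr_fun e1 x
  have hprod : φ (Nm (cr r hr (ZMod p)) c) = algebraMap (ZMod p) L u := by
    rw [ht2]
    unfold Nm
    rw [map_prod, cr_d, Finset.prod_congr rfl fun i _ => hφi i]
    have e1 : ∏ i ∈ Finset.range (r - 1), aeval (θ ^ (gen r ^ i)) h =
        ∏ i ∈ (Finset.range (Module.finrank (ZMod p) L)).image I,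
          aeval (θ ^ (gen r ^ i)) h := by
      symm
      refine Finset.prod_subset ?_ ?_
      · intro i hi
        obtain ⟨j, _, rfl⟩ := Finset.mem_image.1 hi
        exact Finset.mem_range.2 (hI1 j)
      · intro i hi hni
        refine hh1 _ ?_
        have e2 : aeval (θ ^ (gen r ^ i)) (cyclotomic r (ZMod p)) = 0 := by
          have e3 := hφi i
          have e4 : φ (((cr r hr (ZMod p)).σ ^ i) (ze r (ZMod p))) = θ ^ (gen r ^ i) := by
            rw [cr_pow_ze, map_pow, hφζ]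
          rw [← e4, aeval_algHom_apply]
          have e5 : aeval (((cr r hr (ZMod p)).σ ^ i) (ze r (ZMod p))) (cyclotomic r (ZMod p)) =
              ((cr r hr (ZMod p)).σ ^ i) (aeval (ze r (ZMod p)) (cyclotomic r (ZMod p))) :=
            (haev _ _ _).symm
          rw [e5, AdjoinRoot.aeval_eq, AdjoinRoot.mk_self, map_zero, map_zero]
        rw [hPQ, map_mul] at e2
        rcases mul_eq_zero.1 e2 with e6 | e6
        · exfalso
          apply hni
          -- an automorphism
          let ψ : L →ₐ[ZMod p] L := AdjoinRoot.liftAlgHom P (Algebra.ofId _ L) _ e6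
          have hψ : ψ θ = θ ^ (gen r ^ i) := AdjoinRoot.liftAlgHom_root _ _ _ _
          have hψb : Function.Bijective ψ := ψ.bijective
          obtain ⟨j, hj⟩ := hbij.2 (AlgEquiv.ofBijective ψ hψb)
          have e7 := hfrob j θ
          simp only at hj
          rw [hj] at e7
          have e8 : θ ^ (gen r ^ i) = θ ^ (p ^ (j : ℕ)) := hψ.symm.trans e7
          rw [← hθI j] at e8
          have e9 := hmod' _ _ e8
          rw [Nat.cast_pow, Nat.cast_pow] at e9
          rw [Finset.mem_image]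
          refine ⟨j, Finset.mem_range.2 j.2, ?_⟩
          have hij : (gen r : ZMod r) ^ I j = (gen r : ZMod r) ^ i := e9.symm
          have key : ∀ a b : ℕ, a ≤ b → b < r - 1 →
              (gen r : ZMod r) ^ a = (gen r : ZMod r) ^ b → a = b := by
            intro a b hab' hb he
            have hg0 : (gen r : ZMod r) ≠ 0 := by
              intro h0
              have e := (gen_pow r (r - 1)).2 dvd_rfl
              rw [h0, zero_pow (by omega)] at e
              exact zero_ne_one e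
            have h4 : (gen r : ZMod r) ^ (b - a) = 1 := by
              have h5 : (gen r : ZMod r) ^ a * (gen r : ZMod r) ^ (b - a) =
                  (gen r : ZMod r) ^ a * 1 := by
                rw [← pow_add, Nat.add_sub_cancel' hab', mul_one, he]
              exact mul_left_cancel₀ (pow_ne_zero _ hg0) h5
            have h6 := Nat.eq_zero_of_dvd_of_lt ((gen_pow r _).1 h4) (by omega)
            omega
          rcases le_total (I j) i with h7 | h7
          · exact key _ _ h7 (Finset.mem_range.1 hi) hij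
          · exact (key _ _ h7 (hI1 j) hij.symm).symm
        · exact e6
    rw [e1, Finset.prod_image]
    · refine Finset.prod_congr rfl fun j _ => ?_
      rw [hθI, hfa]
    · intro j hj l hl hjl
      have e3 : θ ^ (p ^ j) = θ ^ (p ^ l) := by rw [← hθI, ← hθI, hjl]
      rw [← hfrob, ← hfrob] at e3
      have e4 := hext _ _ e3
      have e5 := hbij.1 (a₁ := ⟨j, Finset.mem_range.1 (Finset.mem_coe.1 hj)⟩)
        (a₂ := ⟨l, Finset.mem_range.1 (Finset.mem_coe.1 hl)⟩) e4
      exact congrArg Fin.val e5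
  refine ⟨c, ?_⟩
  obtain ⟨x, hx⟩ := Nm_mem r hr (ZMod p) c
  rw [hx] at hprod ⊢
  rw [φ.commutes] at hprod
  rw [(algebraMap (ZMod p) L).injective hprod]

end Pool.Agent.Helper6.NP
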