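import Pool.Agent.Helper6.NP.Cr

set_option autoImplicit false

/-!
# NP-03: the cyclotomic rings are Galois if `r` is invertible

PROOF of `one_sub_dvd`.  `c ≠ 0` mod `r`: `∑_{i<r} ζ^(c i) = 0` (permutation of `ZMod r`, `ze_sum`, `ze_pow_eq`), so `r = ∑_{i<r} (1 - ζ^(c i))`, and `1 - ζ^c ∣ 1 - (ζ^c)^i` for all `i`
(`one_sub_dvd_one_sub_pow` / `sub_dvd_pow_sub_pow`).
`cr_galC`: basis `e` of `exists_cr_basis` (index type `Fin (r - 1)` `= Fin (cr ..).d` by `rfl`).  The matrix `(σ^i (ζ^k)) = ((ζ^(g^i))^k)` is `Matrix.vandermonde (fun i => ζ^(g^i))`, its determinant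
(`Matrix.det_vandermonde`) is the product of the `ζ^(g^j) - ζ^(g^i)`, `i < j`; each of them is `±` a power of `ζ` times `1 - ζ^c`, `c ≠ 0` mod `r` (`gen_pow`: `g^i = g^j` mod `r` iff `r - 1 ∣ i - j`), so it divides
the unit `r` and is a unit (`isUnit_of_dvd_unit`).
-/

open Polynomial

namespace Pool.Agent.Helper6.NP

open Pool.Agent.Helper1.SX

variable (r : ℕ) [Fact r.Prime]

theorem one_sub_dvd (R : Type) [CommRing R] (c : ℕ) (hc : (c : ZMod r) ≠ 0) :
    1 - ze r R ^ c ∣ (r : Cr r R) := by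
  have hr : 1 ≤ r := (Fact.out : r.Prime).one_lt.le
  have h1 : (r : Cr r R) = ∑ i ∈ Finset.range (r - 1), (1 - (ze r R ^ c) ^ gen r ^ i) := by
    rw [Finset.sum_sub_distrib]
    simp only [← pow_mul]
    rw [ze_sum_gen r R c hc, Finset.sum_const, Finset.card_range, nsmul_eq_mul, mul_one,
      sub_neg_eq_add, Nat.cast_sub hr, Nat.cast_one, sub_add_cancel]
  rw [h1]
  exact Finset.dvd_sum fun i _ => one_sub_dvd_one_sub_pow _ _

theorem cr_galC (hr : r ≠ 2) (R : Type) [CommRing R] [Nontrivial R] (hR : IsUnit (r : R)) :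
    GalC (cr r hr R) := by
  have hp : r.Prime := Fact.out
  have h2 := hp.two_le
  obtain ⟨e, he⟩ : ∃ e : Module.Basis (Fin (cr r hr R).d) R (Cr r R),
      ∀ k, e k = ze r R ^ (k : ℕ) := exists_cr_basis r R
  refine ⟨e, ?_⟩
  have hM : (Matrix.of fun i k : Fin (cr r hr R).d => ((cr r hr R).σ ^ (i : ℕ)) (e k)) =
      Matrix.vandermonde (fun i : Fin (cr r hr R).d => ze r R ^ gen r ^ (i : ℕ)) := by
    ext i k
    rw [Matrix.of_apply, Matrix.vandermonde_apply]
    have h3 : e k = ze r R ^ (k : ℕ) := he k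
    rw [h3, map_pow, cr_pow_ze]
  rw [hM, Matrix.det_vandermonde]
  have hru : IsUnit (r : Cr r R) := by
    have h3 := hR.map (algebraMap R (Cr r R))
    rwa [map_natCast] at h3
  have hzu : IsUnit (ze r R) := IsUnit.of_pow_eq_one (ze_pow r R) hp.ne_zero
  have hg0 : (gen r : ZMod r) ≠ 0 := by
    intro h0
    have h3 := (gen_pow r (r - 1)).2 dvd_rfl
    rw [h0, zero_pow (by omega)] at h3
    exact zero_ne_one h3
  rw [IsUnit.prod_iff]
  intro i _
  rw [IsUnit.prod_iff]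
  intro j hj
  have hij : (i : ℕ) < (j : ℕ) := Fin.lt_def.1 (Finset.mem_Ioi.1 hj)
  have hjr : (j : ℕ) < r - 1 := j.2
  set a := gen r ^ (i : ℕ) with ha
  set b := gen r ^ (j : ℕ) with hb
  set c := b + (r - 1) * a with hc
  have hrc : ((r - 1 : ℕ) : ZMod r) = -1 := by
    rw [Nat.cast_sub (by omega), Nat.cast_one, ZMod.natCast_self, zero_sub]
  have hc1 : (c : ZMod r) = b - a := by
    rw [hc, Nat.cast_add, Nat.cast_mul, hrc]
    ring
  have hc0 : (c : ZMod r) ≠ 0 := by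
    rw [hc1, ha, hb, Nat.cast_pow, Nat.cast_pow]
    intro h3
    have h4 : (gen r : ZMod r) ^ (i : ℕ) * (gen r : ZMod r) ^ ((j : ℕ) - (i : ℕ)) =
        (gen r : ZMod r) ^ (i : ℕ) * 1 := by
      rw [← pow_add, Nat.add_sub_cancel' hij.le, mul_one]
      exact sub_eq_zero.1 h3
    have h5 := mul_left_cancel₀ (pow_ne_zero _ hg0) h4
    have h6 := Nat.le_of_dvd (by omega) ((gen_pow r _).1 h5)
    omega
  have h3 : ze r R ^ b = ze r R ^ (a + c) := by
    refine ze_pow_eq r R _ _ ?_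
    rw [Nat.cast_add, hc1]
    ring
  have h4 : ze r R ^ b - ze r R ^ a = -(ze r R ^ a * (1 - ze r R ^ c)) := by
    rw [h3, pow_add]
    ring
  rw [h4]
  exact ((hzu.pow a).mul (isUnit_of_dvd_unit (one_sub_dvd r R c hc0) hru)).neg

end Pool.Agent.Helper6.NP
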