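import Pool.Agent.Helper6.NP.CrInv

set_option autoImplicit false

/-!
# NP-08: the ramified place `r`

`irr_qr` (NP-08): `Φ_r(X + 1)` is an Eisenstein polynomial at `r`: `cyclotomic_comp_X_add_one_isEisensteinAt` (over `ℤ`); map it to `ℤ_[r]` (coefficients divisible by `r`, constant coefficient `Φ_r(1) = r` not
divisible by `r^2`), so it is irreducible over `ℤ_[r]` (`IsEisensteinAt.irreducible`) and over the fraction field `ℚ_[r]` (`Polynomial.Monic.irreducible_iff_irreducible_map_fraction_map`); undo the shift `X ↦ X + 1`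
(an automorphism of the polynomial ring: `Polynomial.algEquivAevalXAddC`).

-/

open Polynomial

namespace Pool.Agent.Helper6.NP

open Pool.Agent.Helper1.SX

private lemma monic_f (r : ℕ) [Fact r.Prime] :
    ((cyclotomic r ℤ_[r]).comp (X + C 1)).Monic :=
  (cyclotomic.monic r _).comp_X_add_C 1

private lemma map_f (r : ℕ) [Fact r.Prime] :
    ((cyclotomic r ℤ).comp (X + 1)).map (Int.castRingHom ℤ_[r]) =
      (cyclotomic r ℤ_[r]).comp (X + C 1) := by
  rw [Polynomial.map_comp, map_cyclotomic]
  simp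

private lemma irr_zr (r : ℕ) [Fact r.Prime] :
    Irreducible ((cyclotomic r ℤ_[r]).comp (X + C 1)) := by
  have hr : r.Prime := Fact.out
  have hE := cyclotomic_comp_X_add_one_isEisensteinAt r
  have hm := monic_f r
  have hdeg : ((cyclotomic r ℤ_[r]).comp (X + C 1)).natDegree = r - 1 := by
    rw [natDegree_comp, natDegree_X_add_C, mul_one, natDegree_cyclotomic,
      Nat.totient_prime hr]
  have hprime : Prime (r : ℤ_[r]) := PadicInt.prime_p
  have hP : (Ideal.span {(r : ℤ_[r])}).IsPrime :=
    (Ideal.span_singleton_prime hprime.ne_zero).2 hprime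
  have hE' : ((cyclotomic r ℤ_[r]).comp (X + C 1)).IsEisensteinAt
      (Ideal.span {(r : ℤ_[r])}) := by
    refine ⟨?_, ?_, ?_⟩
    · rw [hm.leadingCoeff]
      intro h
      exact hP.ne_top ((Ideal.eq_top_iff_one _).2 h)
    · intro n hn
      rw [hdeg] at hn
      have h1 : n < ((cyclotomic r ℤ).comp (X + 1)).natDegree := by
        have : (X + 1 : ℤ[X]) = X + C 1 := by simp
        rw [this, natDegree_comp, natDegree_X_add_C, mul_one, natDegree_cyclotomic,
          Nat.totient_prime hr]
        exact hn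
      have h2 := hE.mem h1
      rw [← map_f, coeff_map]
      rw [Ideal.mem_span_singleton]
      obtain ⟨c, hc⟩ := (Ideal.mem_span_singleton.1 h2 : (r : ℤ) ∣ _)
      rw [hc]
      exact ⟨(c : ℤ_[r]), by simp⟩
    · have h0 : ((cyclotomic r ℤ_[r]).comp (X + C 1)).coeff 0 = (r : ℤ_[r]) := by
        rw [coeff_zero_eq_eval_zero, eval_comp]
        simp [eval_one_cyclotomic_prime]
      rw [h0, Ideal.span_singleton_pow, Ideal.mem_span_singleton]
      rintro ⟨c, hc⟩
      have h3 : (r : ℤ_[r]) * ((r : ℤ_[r]) * c) = (r : ℤ_[r]) * 1 := by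
        rw [mul_one, ← mul_assoc, ← pow_two]; exact hc.symm
      have h4 := mul_left_cancel₀ hprime.ne_zero h3
      exact hprime.not_isUnit (IsUnit.of_mul_eq_one _ h4)
  refine hE'.irreducible hP hm.isPrimitive ?_
  rw [hdeg]
  have := hr.two_le
  omega

theorem irr_qr (r : ℕ) [Fact r.Prime] : Irreducible (cyclotomic r ℚ_[r]) := by
  have h1 := irr_zr r
  have h2 := ((monic_f r).irreducible_iff_irreducible_map_fraction_map (K := ℚ_[r])).1 h1
  have h3 : ((cyclotomic r ℤ_[r]).comp (X + C 1)).map (algebraMap ℤ_[r] ℚ_[r]) =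
      (algEquivAevalXAddC (1 : ℚ_[r])) (cyclotomic r ℚ_[r]) := by
    rw [Polynomial.map_comp, map_cyclotomic]
    simp [algEquivAevalXAddC_apply, Polynomial.comp, aeval_def]
  rw [h3] at h2
  exact (MulEquiv.irreducible_iff (algEquivAevalXAddC (1 : ℚ_[r]))).1 h2

end Pool.Agent.Helper6.NP
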