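import Pool.Agent.Helper6.NP.CrU

set_option autoImplicit false

/-!
# NP-09: unit norms at the ramified place `r` are `1` modulo `r`

CLAIM: a norm from `Cr r ℚ_[r]` which is a unit is `1` mod `r`.  PROOF.  `A = Cr r ℤ_[r]`, `ε : A → ZMod r`, `ζ ↦ 1` (`AdjoinRoot.lift (PadicInt.toZMod) 1`, `Φ_r(1) = r = 0`), `ε (σ s) = ε s`,
so `ε (Nm s) = (ε s)^(r-1)`, which is `1` if `ε s ≠ 0` (Fermat: `ZMod.pow_card_sub_one_eq_one`).  `π = 1 - ζ ∈ A`, `Nm π = r` (`nm_one_sub` at `t = 1`).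
If `ε s = 0` then `s = π t`: `s = h(ζ) = h(1) + (ζ - 1) h₁(ζ)` (division of `h` by `X - 1`), `h(1) ∈ r ℤ_[r]` because `ε s = 0`, and `π ∣ r` (factor `i = 0` of `Nm π = r`).
(I) So for `s ∈ A` with `Nm s = algebraMap x`, `x ≠ 0`: `x = r^m y` with `y = 1` mod `r`: induction on the valuation of `x`: if `ε s ≠ 0` then `x̄ = ε (Nm s) = 1`.  Otherwise `s = π t`, `Nm s = r Nm t`, `Nm t = algebraMap x'`
(`Nm_mem`), `x = r x'` (`cr_inj`).
(II) `c ∈ Cr r ℚ_[r]` with `Nm c = algebraMap u`, `‖u‖ = 1`: `r^N c = ψ(s)` for some `s ∈ A`, `N` large (`c = h(ζ)`, clear the denominators of the finitely many coefficients), `ψ : A → Cr r ℚ_[r]` (`exists_crMap`).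
`Nm (r^N c) = r^(N(r-1)) u` (`Nm_mul`, `Nm_const`), `Nm s = algebraMap x`, `x = r^(N(r-1)) u` in `ℚ_[r]` (`map_Nm`, `cr_inj`), so by (I) `r^(N(r-1)) u = r^m y`, `‖u‖ = ‖y‖ = 1` gives `m = N(r-1)` and `u = y`.
-/

open Polynomial

namespace Pool.Agent.Helper6.NP

open Pool.Agent.Helper1.SX

private lemma toZ_zero (r : ℕ) [Fact r.Prime] (x : ℤ_[r]) :
    PadicInt.toZMod x = 0 ↔ (r : ℤ_[r]) ∣ x := by
  rw [← RingHom.mem_ker, PadicInt.ker_toZMod, PadicInt.maximalIdeal_eq_span_p,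
    Ideal.mem_span_singleton]

private lemma exists_eps (r : ℕ) [Fact r.Prime] (hr : r ≠ 2) :
    ∃ ε : Cr r ℤ_[r] →+* ZMod r, ε (ze r ℤ_[r]) = 1 ∧
      (∀ x : ℤ_[r], ε (algebraMap ℤ_[r] (Cr r ℤ_[r]) x) = PadicInt.toZMod x) ∧
      ∀ s, ε ((cr r hr ℤ_[r]).σ s) = ε s := by
  have h0 : (cyclotomic r ℤ_[r]).eval₂ (PadicInt.toZMod (p := r)) 1 = 0 := by
    rw [Polynomial.eval₂_at_one, eval_one_cyclotomic_prime, map_natCast, ZMod.natCast_self]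
  refine ⟨AdjoinRoot.lift (PadicInt.toZMod (p := r)) 1 h0, AdjoinRoot.lift_root h0,
    fun x => AdjoinRoot.lift_of h0, ?_⟩
  have h1 : (AdjoinRoot.lift (PadicInt.toZMod (p := r)) 1 h0).comp
      ((cr r hr ℤ_[r]).σ : Cr r ℤ_[r] →+* Cr r ℤ_[r]) =
      AdjoinRoot.lift (PadicInt.toZMod (p := r)) 1 h0 := by
    apply AdjoinRoot.ringHom_ext
    · ext x
      simp only [RingHom.comp_apply]
      have h2 : ((cr r hr ℤ_[r]).σ : Cr r ℤ_[r] →+* Cr r ℤ_[r])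
          (AdjoinRoot.of (cyclotomic r ℤ_[r]) x) = AdjoinRoot.of (cyclotomic r ℤ_[r]) x :=
        (cr r hr ℤ_[r]).σ.commutes x
      rw [h2]
    · simp only [RingHom.comp_apply]
      have h2 : ((cr r hr ℤ_[r]).σ : Cr r ℤ_[r] →+* Cr r ℤ_[r])
          (AdjoinRoot.root (cyclotomic r ℤ_[r])) =
          AdjoinRoot.root (cyclotomic r ℤ_[r]) ^ gen r := cr_ze r hr ℤ_[r]
      rw [h2, map_pow, AdjoinRoot.lift_root, one_pow]
  intro s
  exact DFunLike.congr_fun h1 s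

private lemma eps_Nm (r : ℕ) [Fact r.Prime] (hr : r ≠ 2) (ε : Cr r ℤ_[r] →+* ZMod r)
    (hε : ∀ s, ε ((cr r hr ℤ_[r]).σ s) = ε s) (s : Cr r ℤ_[r]) :
    ε (Nm (cr r hr ℤ_[r]) s) = ε s ^ (r - 1) := by
  have h1 : ∀ (i : ℕ) (s : Cr r ℤ_[r]), ε (((cr r hr ℤ_[r]).σ ^ i) s) = ε s := by
    intro i
    induction i with
    | zero => intro s; rfl
    | succ i ih =>
      intro s
      rw [pow_succ, AlgEquiv.mul_apply, ih, hε]
  unfold Nm
  rw [map_prod, cr_d, Finset.prod_congr rfl fun i _ => h1 i s, Finset.prod_const,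
    Finset.card_range]

private lemma pi_dvd_r (r : ℕ) [Fact r.Prime] (hr : r ≠ 2) :
    (1 - ze r ℤ_[r]) ∣ algebraMap ℤ_[r] (Cr r ℤ_[r]) (r : ℤ_[r]) ∧
      Nm (cr r hr ℤ_[r]) (1 - ze r ℤ_[r]) = algebraMap ℤ_[r] (Cr r ℤ_[r]) (r : ℤ_[r]) := by
  have h1 := nm_one_sub r hr ℤ_[r] 1
  rw [map_one, one_mul] at h1
  simp only [one_pow, Finset.sum_const, Finset.card_range, nsmul_eq_mul, mul_one] at h1
  refine ⟨?_, h1⟩
  rw [← h1]
  unfold Nm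
  have h2 : (1 - ze r ℤ_[r]) = ((cr r hr ℤ_[r]).σ ^ 0) (1 - ze r ℤ_[r]) := by
    rw [pow_zero]; rfl
  conv_lhs => rw [h2]
  refine Finset.dvd_prod_of_mem (fun i => ((cr r hr ℤ_[r]).σ ^ i) (1 - ze r ℤ_[r])) ?_
  rw [Finset.mem_range]
  have := (cr r hr ℤ_[r]).two
  omega

private lemma pi_dvd (r : ℕ) [Fact r.Prime] (hr : r ≠ 2) (ε : Cr r ℤ_[r] →+* ZMod r)
    (hz : ε (ze r ℤ_[r]) = 1)
    (ha : ∀ x : ℤ_[r], ε (algebraMap ℤ_[r] (Cr r ℤ_[r]) x) = PadicInt.toZMod x)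
    (s : Cr r ℤ_[r]) (hs : ε s = 0) : (1 - ze r ℤ_[r]) ∣ s := by
  obtain ⟨h, rfl⟩ := AdjoinRoot.mk_surjective s
  have h1 : (X - C (1 : ℤ_[r])) * (h /ₘ (X - C 1)) + C (h.eval 1) = h := by
    have h2 := modByMonic_add_div h (q := X - C (1 : ℤ_[r]))
    rw [modByMonic_X_sub_C_eq_C_eval] at h2
    rw [add_comm]
    exact h2
  have h3 : AdjoinRoot.mk (cyclotomic r ℤ_[r]) h = (1 - ze r ℤ_[r]) *
      (-AdjoinRoot.mk (cyclotomic r ℤ_[r]) (h /ₘ (X - C 1))) +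
      algebraMap ℤ_[r] (Cr r ℤ_[r]) (h.eval 1) := by
    conv_lhs => rw [← h1]
    rw [map_add, map_mul, map_sub, AdjoinRoot.mk_X, AdjoinRoot.mk_C, map_one]
    change (ze r ℤ_[r] - 1) * _ + algebraMap ℤ_[r] (Cr r ℤ_[r]) (h.eval 1) = _
    ring
  rw [h3] at hs ⊢
  refine dvd_add (dvd_mul_right _ _) ?_
  rw [map_add, map_mul, map_sub, map_one, hz, sub_self, zero_mul, zero_add, ha, toZ_zero] at hs
  exact (pi_dvd_r r hr).1.trans (map_dvd _ hs)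

private lemma part_one (r : ℕ) [Fact r.Prime] (hr : r ≠ 2) (ε : Cr r ℤ_[r] →+* ZMod r)
    (hz : ε (ze r ℤ_[r]) = 1)
    (ha : ∀ x : ℤ_[r], ε (algebraMap ℤ_[r] (Cr r ℤ_[r]) x) = PadicInt.toZMod x)
    (hε : ∀ s, ε ((cr r hr ℤ_[r]).σ s) = ε s) (n : ℕ) : ∀ (s : Cr r ℤ_[r]) (x : ℤ_[r]),
    ¬ (r : ℤ_[r]) ^ n ∣ x → Nm (cr r hr ℤ_[r]) s = algebraMap ℤ_[r] (Cr r ℤ_[r]) x →
    ∃ (m : ℕ) (y : ℤ_[r]), x = (r : ℤ_[r]) ^ m * y ∧ PadicInt.toZMod y = 1 := by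
  induction n with
  | zero =>
    intro s x hx _
    exact absurd (by rw [pow_zero]; exact one_dvd x) hx
  | succ n ih =>
    intro s x hx hN
    by_cases h0 : ε s = 0
    · obtain ⟨t, rfl⟩ := pi_dvd r hr ε hz ha s h0
      obtain ⟨x', hx'⟩ := Nm_mem r hr ℤ_[r] t
      rw [Nm_mul, (pi_dvd_r r hr).2, hx', ← map_mul] at hN
      have h1 := cr_inj r ℤ_[r] hN
      obtain ⟨m, y, h2, h3⟩ := ih t x' (fun h => hx (by
        rw [← h1, pow_succ']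
        exact mul_dvd_mul_left _ h)) hx'
      refine ⟨m + 1, y, ?_, h3⟩
      rw [← h1, h2, pow_succ']
      ring
    · refine ⟨0, x, by rw [pow_zero, one_mul], ?_⟩
      rw [← ha, ← hN, eps_Nm r hr ε hε, ZMod.pow_card_sub_one_eq_one h0]

theorem nm_r (r : ℕ) [Fact r.Prime] (hr : r ≠ 2) (u : ℚ_[r]) (hu : ‖u‖ = 1)
    (c : Cr r ℚ_[r]) (h : Nm (cr r hr ℚ_[r]) c = algebraMap ℚ_[r] (Cr r ℚ_[r]) u) :
    ‖u - 1‖ < 1 := by
  obtain ⟨ε, hz, ha, hε⟩ := exists_eps r hr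
  obtain ⟨ψ, hψz, hψa, hψσ⟩ := exists_crMap r hr (PadicInt.Coe.ringHom (p := r))
  have hrp : (r : ℤ_[r]) ≠ 0 := PadicInt.prime_p.ne_zero
  -- the denominators
  obtain ⟨b, s, hb0, hbs⟩ : ∃ (b : ℤ_[r]) (s : Cr r ℤ_[r]), b ≠ 0 ∧
      algebraMap ℚ_[r] (Cr r ℚ_[r]) (b : ℚ_[r]) * c = ψ s := by
    obtain ⟨f, rfl⟩ := AdjoinRoot.mk_surjective c
    obtain ⟨b, hbM, hb⟩ := IsLocalization.integerNormalization_spec (nonZeroDivisors ℤ_[r]) f
    refine ⟨b, AdjoinRoot.mk (cyclotomic r ℤ_[r])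
      (IsLocalization.integerNormalization (nonZeroDivisors ℤ_[r]) f),
      nonZeroDivisors.ne_zero hbM, ?_⟩
    have h1 : ∀ g : ℤ_[r][X], ψ (AdjoinRoot.mk (cyclotomic r ℤ_[r]) g) =
        AdjoinRoot.mk (cyclotomic r ℚ_[r]) (g.map (algebraMap ℤ_[r] ℚ_[r])) := by
      intro g
      induction g using Polynomial.induction_on' with
      | add p q hp hq => rw [map_add, map_add, hp, hq, Polynomial.map_add, map_add]
      | monomial n a =>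
        rw [← C_mul_X_pow_eq_monomial, map_mul, map_mul, map_pow, map_pow, AdjoinRoot.mk_X,
          AdjoinRoot.mk_C, hψz, Polynomial.map_mul, Polynomial.map_pow, map_X, map_C, map_mul,
          map_pow, AdjoinRoot.mk_X, AdjoinRoot.mk_C]
        exact congrArg (· * ze r ℚ_[r] ^ n) (hψa a)
    rw [h1, hb, ← algebraMap_smul ℚ_[r] (b : ℤ_[r]) f, smul_eq_C_mul, map_mul, AdjoinRoot.mk_C]
    rfl
  obtain ⟨x, hx⟩ := Nm_mem r hr ℤ_[r] s
  -- the norm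
  have hxu : (x : ℚ_[r]) = (b : ℚ_[r]) ^ (r - 1) * u := by
    apply cr_inj r ℚ_[r]
    have h1 := map_Nm r hr ψ hψσ s
    rw [hx, ← hbs, Nm_mul, Nm_const, h, ← map_mul, hψa] at h1
    exact h1
  have hb0' : (b : ℚ_[r]) ≠ 0 := by
    intro h0
    exact hb0 (PadicInt.coe_eq_zero.1 h0)
  have hu0 : u ≠ 0 := by
    intro h0
    rw [h0, norm_zero] at hu
    exact zero_ne_one hu
  have hx0 : x ≠ 0 := by
    intro h0
    rw [h0, PadicInt.coe_zero] at hxu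
    exact (mul_ne_zero (pow_ne_zero _ hb0') hu0) hxu.symm
  obtain ⟨n, w, hw, hxw⟩ := WfDvdMonoid.max_power_factor hx0 PadicInt.prime_p.irreducible
  obtain ⟨m, y, hxy, hy⟩ := part_one r hr ε hz ha hε (n + 1) s x (by
    rintro ⟨z, hz⟩
    apply hw
    refine ⟨z, ?_⟩
    have h1 : (r : ℤ_[r]) ^ n * w = (r : ℤ_[r]) ^ n * ((r : ℤ_[r]) * z) := by
      rw [← hxw, hz, pow_succ]
      ring
    exact mul_left_cancel₀ (pow_ne_zero _ hrp) h1) hx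
  obtain ⟨k, v, hv, hbv⟩ := WfDvdMonoid.max_power_factor hb0 PadicInt.prime_p.irreducible
  have hv1 : PadicInt.toZMod v ^ (r - 1) = 1 :=
    ZMod.pow_card_sub_one_eq_one fun h0 => hv ((toZ_zero r v).1 h0)
  have hnv : ‖(v : ℚ_[r])‖ = 1 := by
    rw [← PadicInt.norm_def]
    refine le_antisymm (PadicInt.norm_le_one v) (not_lt.1 fun h0 => hv ?_)
    exact PadicInt.norm_lt_one_iff_dvd v |>.1 h0
  have hny : ‖(y : ℚ_[r])‖ = 1 := by
    rw [← PadicInt.norm_def]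
    refine le_antisymm (PadicInt.norm_le_one y) (not_lt.1 fun h0 => ?_)
    have h1 := (toZ_zero r y).2 ((PadicInt.norm_lt_one_iff_dvd y).1 h0)
    rw [hy] at h1
    exact one_ne_zero h1
  have hr1 : (1 : ℝ) < r := by
    exact_mod_cast (Fact.out : r.Prime).one_lt
  have h5 : (r : ℚ_[r]) ^ m * (y : ℚ_[r]) =
      (r : ℚ_[r]) ^ (k * (r - 1)) * ((v : ℚ_[r]) ^ (r - 1) * u) := by
    have h6 : (x : ℚ_[r]) = (r : ℚ_[r]) ^ m * (y : ℚ_[r]) := by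
      rw [hxy]; push_cast; ring
    have h7 : (b : ℚ_[r]) = (r : ℚ_[r]) ^ k * (v : ℚ_[r]) := by
      rw [hbv]; push_cast; ring
    rw [← h6, hxu, h7, mul_pow, ← pow_mul]
    ring
  have h8 : m = k * (r - 1) := by
    have h9 := congrArg norm h5
    rw [norm_mul, norm_mul, norm_mul, norm_pow, norm_pow, norm_pow, hny, hnv, hu, one_pow,
      mul_one, mul_one, mul_one, Padic.norm_p, inv_pow, inv_pow, inv_inj] at h9
    exact pow_right_injective₀ (by positivity) (ne_of_gt hr1) h9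
  have hrq : (r : ℚ_[r]) ≠ 0 := by
    exact_mod_cast (Fact.out : r.Prime).ne_zero
  rw [h8] at h5
  have h10 := mul_left_cancel₀ (pow_ne_zero _ hrq) h5
  have h11 : (v : ℚ_[r]) ^ (r - 1) * (u - 1) = ((y - v ^ (r - 1) : ℤ_[r]) : ℚ_[r]) := by
    push_cast
    rw [h10]
    ring
  have h12 := congrArg norm h11
  rw [norm_mul, norm_pow, hnv, one_pow, one_mul, ← PadicInt.norm_def] at h12
  rw [h12, PadicInt.norm_lt_one_iff_dvd, ← toZ_zero, map_sub, map_pow, hy, hv1, sub_self]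

end Pool.Agent.Helper6.NP
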