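import Pool.Agent.Helper6.NP.CrF

set_option autoImplicit false

/-!
# NP-06, 07: units of `ℤ_p`, `p ≠ r`, are norms

`exists_poly` (NP-06): there is `f ∈ R[X]` with `f(0) = 1`, `f'(0) = 1` and `Nm (1 - t ζ) = f(t)` for all `t ∈ R`.  PROOF: in fact `∏_{i<r-1} (1 - t ζ^(g^i)) = ∏_{j=1}^{r-1} (1 - t ζ^j) = 1 + t + ... + t^(r-1)`, so
`f = ∑_{i<r} X^i`.  To show `∏_{j=1}^{r-1} (1 - t ζ^j) = ∑_{i<r} t^i` in every commutative ring `R`: over `ℤ[T]` (a domain of characteristic 0): `Cr r` of its fraction field... SIMPLER: it is enough to know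
it over a field `K` of characteristic `0` for `K(ζ)` a field (e.g. `K = ℚ(T)`), hmm; or: the polynomial identity `∏_{a=1}^{r-1} (Y - ζ^a) = Φ_r(Y)` holds in `(Cr r ℤ)[Y]` (`Cr r ℤ` is a domain, `ζ` a primitive root:
`Polynomial.cyclotomic_eq_prod_X_sub_primitiveRoots`), map it to `(Cr r R)[Y]` by `exists_crMap` for `Int.castRingHom R`, and reverse: multiply with `t`: `∏ (1 - t ζ^a) = ∏_a ζ^a · ∏ (ζ^(-a) - t) = Φ_r(t)` up to the sign
`(-1)^(r-1) = 1` and `∏_a ζ^a = ζ^(r(r-1)/2) = 1`.  (Any other proof is fine; only `f(0) = f'(0) = 1` are used later.)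
`nm_zp` (NP-07).  `R = ℤ_[p]`.  (1) By `nm_zmod` there is `c̄ ∈ Cr r (ZMod p)` with `Nm c̄ = ū`.  Lift it to `c ∈ Cr r R` (`AdjoinRoot.mk` of a polynomial with lifted coefficients; `PadicInt.toZMod` is surjective): image `c̄` under the map
`ψ : Cr r R → Cr r (ZMod p)` of `exists_crMap` for `PadicInt.toZMod`.  `Nm c = algebraMap x` (`Nm_mem`), and `x̄ = ū` (`map_Nm`, `cr_inj`).  So `x` is a unit, `u = x v` with `v = 1 mod p`.
(2) `v` is a norm: Hensel (`hensels_lemma`) for `f - C v` at `0`: `‖1 - v‖ < 1 = ‖f'(0)‖^2`: there is `t` with `f(t) = v`.  Then `Nm (c (1 - t ζ)) = u` (`Nm_mul`).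
`unit_norm`: map to `Cr r ℚ_[p]` (`exists_crMap` for `ℤ_[p] → ℚ_[p]`), `isUnit_of_Nm`.
-/

open Polynomial

namespace Pool.Agent.Helper6.NP

open Pool.Agent.Helper1.SX

private theorem cu_pow_inj (r : ℕ) [Fact r.Prime] {B : Type} [CommRing B] [IsDomain B] {z : B}
    (hz : IsPrimitiveRoot z r) {i j : ℕ} (hij : i ≤ j) (hj : j < r - 1)
    (h : z ^ gen r ^ i = z ^ gen r ^ j) : i = j := by
  have hr2 := (Fact.out : r.Prime).two_le
  have h1 : (gen r ^ i : ℕ) ≡ gen r ^ j [MOD r] := by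
    have hm : ∀ a, z ^ (a % r) = z ^ a := by
      intro a
      have h0 := pow_mod_orderOf z a
      rwa [← hz.eq_orderOf] at h0
    have h0 : 0 < r := by omega
    exact hz.pow_inj (Nat.mod_lt _ h0) (Nat.mod_lt _ h0) (by rw [hm, hm, h])
  have h2 : ((gen r ^ i : ℕ) : ZMod r) = ((gen r ^ j : ℕ) : ZMod r) :=
    (ZMod.natCast_eq_natCast_iff _ _ _).2 h1
  rw [Nat.cast_pow, Nat.cast_pow] at h2
  have hg : (gen r : ZMod r) ≠ 0 := by
    intro h0
    have h3 := (gen_pow r (r - 1)).2 dvd_rfl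
    rw [h0, zero_pow (by omega)] at h3
    exact zero_ne_one h3
  have h3 : (gen r : ZMod r) ^ (j - i) = 1 := by
    have h4 : (gen r : ZMod r) ^ i * (gen r : ZMod r) ^ (j - i) =
        (gen r : ZMod r) ^ i * 1 := by
      rw [← pow_add, Nat.add_sub_cancel' hij, mul_one, h2]
    exact mul_left_cancel₀ (pow_ne_zero _ hg) h4
  have h5 := Nat.eq_zero_of_dvd_of_lt ((gen_pow r _).1 h3) (by omega)
  omega

private theorem cu_domain (r : ℕ) [Fact r.Prime] {B : Type} [CommRing B] [IsDomain B] {z : B}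
    (hz : IsPrimitiveRoot z r) (t : B) (ht : t ≠ 1) :
    ∏ i ∈ Finset.range (r - 1), (1 - t * z ^ gen r ^ i) = ∑ i ∈ Finset.range r, t ^ i := by
  classical
  have hr2 := (Fact.out : r.Prime).two_le
  have hr0 : 0 < r := by omega
  have hr0' : NeZero r := ⟨by omega⟩
  have h1 := hz.pow_sub_pow_eq_prod_sub_mul 1 t hr0
  have hone : (1 : B) ∈ nthRootsFinset r (1 : B) := by
    rw [mem_nthRootsFinset hr0]
    exact one_pow r
  rw [← Finset.mul_prod_erase _ _ hone, one_mul, one_pow] at h1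
  have h2 : ∏ μ ∈ (nthRootsFinset r (1 : B)).erase 1, (1 - μ * t) =
      ∏ i ∈ Finset.range (r - 1), (1 - t * z ^ gen r ^ i) := by
    symm
    refine Finset.prod_bij (fun i _ => z ^ gen r ^ i) ?_ ?_ ?_ ?_
    · intro i _
      rw [Finset.mem_erase, mem_nthRootsFinset hr0]
      refine ⟨?_, by rw [← pow_mul, mul_comm, pow_mul, hz.pow_eq_one, one_pow]⟩
      intro h3
      have h4 : r ∣ gen r ^ i := (hz.pow_eq_one_iff_dvd _).1 h3
      have h5 : r ∣ gen r := (Fact.out : r.Prime).dvd_of_dvd_pow h4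
      have h6 : (gen r : ZMod r) = 0 := (ZMod.natCast_eq_zero_iff _ _).2 h5
      have h7 := (gen_pow r (r - 1)).2 dvd_rfl
      rw [h6, zero_pow (by omega)] at h7
      exact zero_ne_one h7
    · intro i hi j hj h3
      rw [Finset.mem_range] at hi hj
      rcases le_total i j with hij | hij
      · exact cu_pow_inj r hz hij hj h3
      · exact (cu_pow_inj r hz hij hi h3.symm).symm
    · intro μ hμ
      rw [Finset.mem_erase, mem_nthRootsFinset hr0] at hμ
      obtain ⟨k, hk, hk2⟩ := hz.eq_pow_of_pow_eq_one hμ.2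
      have hk0 : (k : ZMod r) ≠ 0 := by
        intro h3
        have h4 : r ∣ k := (ZMod.natCast_eq_zero_iff _ _).1 h3
        apply hμ.1
        rw [← hk2]
        exact (hz.pow_eq_one_iff_dvd _).2 h4
      obtain ⟨s, hs, hs2⟩ := gen_surj r k hk0
      refine ⟨s, Finset.mem_range.2 hs, ?_⟩
      rw [← hk2]
      refine pow_eq_pow_of_modEq ((ZMod.natCast_eq_natCast_iff _ _ _).1 ?_) hz.pow_eq_one
      rw [Nat.cast_pow, hs2]
    · intro i _
      rw [mul_comm]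
  rw [h2] at h1
  have h3 : (1 - t) * ∑ i ∈ Finset.range r, t ^ i = 1 - t ^ r := mul_neg_geom_sum t r
  have h4 : (1 - t) ≠ 0 := sub_ne_zero.2 ht.symm
  exact mul_left_cancel₀ h4 (h1.symm.trans h3.symm)

private theorem cu_prim (r : ℕ) [Fact r.Prime] :
    IsDomain (Cr r ℤ) ∧ IsPrimitiveRoot (ze r ℤ) r := by
  have hr0 : 0 < r := (Fact.out : r.Prime).pos
  have hd : IsDomain (Cr r ℤ) := AdjoinRoot.isDomain_of_prime (cyclotomic.irreducible hr0).prime
  refine ⟨hd, ?_⟩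
  have h1 : ze r ℤ ≠ 1 := by
    intro h
    have h2 := ze_sum r ℤ
    rw [h] at h2
    simp only [one_pow, Finset.sum_const, Finset.card_range, nsmul_eq_mul, mul_one] at h2
    have h3 : algebraMap ℤ (Cr r ℤ) (r : ℤ) = algebraMap ℤ (Cr r ℤ) 0 := by
      rw [map_natCast, map_zero]
      exact h2
    have h4 := cr_inj r ℤ h3
    have h5 : r = 0 := by exact_mod_cast h4
    omega
  have h2 := orderOf_eq_prime (ze_pow r ℤ) h1
  have h3 := IsPrimitiveRoot.orderOf (ze r ℤ)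
  rwa [h2] at h3

theorem nm_one_sub (r : ℕ) [Fact r.Prime] (hr : r ≠ 2) (R : Type) [CommRing R] (t : R) :
    Nm (cr r hr R) (1 - algebraMap R (Cr r R) t * ze r R) =
      algebraMap R (Cr r R) (∑ i ∈ Finset.range r, t ^ i) := by
  obtain ⟨hd, hp⟩ := cu_prim r
  have hC : IsPrimitiveRoot (C (ze r ℤ)) r := hp.map_of_injective C_injective
  have h1 := cu_domain r hC (X : (Cr r ℤ)[X]) (by
    intro h
    have h2 := congrArg natDegree h
    rw [natDegree_X, natDegree_one] at h2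
    exact one_ne_zero h2)
  obtain ⟨ψ, hψ, -, -⟩ := exists_crMap r hr (Int.castRingHom R)
  have h2 := congrArg (eval₂RingHom ψ (algebraMap R (Cr r R) t)) h1
  rw [map_prod, map_sum] at h2
  simp only [map_sub, map_one, map_mul, map_pow, coe_eval₂RingHom, eval₂_X, eval₂_C, hψ] at h2
  unfold Nm
  rw [cr_d, map_sum]
  have h3 : ∀ i ∈ Finset.range (r - 1), ((cr r hr R).σ ^ i) (1 - algebraMap R (Cr r R) t * ze r R) =
      1 - algebraMap R (Cr r R) t * ze r R ^ gen r ^ i := by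
    intro i _
    rw [map_sub, map_one, map_mul, AlgEquiv.commutes, cr_pow_ze]
  rw [Finset.prod_congr rfl h3, h2]
  exact Finset.sum_congr rfl fun i _ => (map_pow _ _ _).symm

private theorem cu_lift (r : ℕ) [Fact r.Prime] {R R' : Type} [CommRing R] [CommRing R']
    (f : R →+* R') (hf : Function.Surjective f) (ψ : Cr r R →+* Cr r R')
    (h1 : ψ (ze r R) = ze r R')
    (h2 : ∀ x : R, ψ (algebraMap R (Cr r R) x) = algebraMap R' (Cr r R') (f x)) (d : Cr r R') :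
    ∃ c : Cr r R, ψ c = d := by
  obtain ⟨g, rfl⟩ := AdjoinRoot.mk_surjective d
  obtain ⟨g0, rfl⟩ := Polynomial.map_surjective f hf g
  refine ⟨aeval (ze r R) g0, ?_⟩
  rw [← AdjoinRoot.aeval_eq, aeval_def, hom_eval₂, aeval_def, eval₂_map, h1]
  congr 1
  ext x
  exact h2 x

theorem nm_zp (r : ℕ) [Fact r.Prime] (hr : r ≠ 2) (p : ℕ) [Fact p.Prime] (hp : p ≠ r)
    (u : ℤ_[p]) (hu : IsUnit u) :
    ∃ c : Cr r ℤ_[p], Nm (cr r hr ℤ_[p]) c = algebraMap ℤ_[p] (Cr r ℤ_[p]) u := by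
  have hr2 := (Fact.out : r.Prime).two_le
  have hu0 : (PadicInt.toZMod u : ZMod p) ≠ 0 := (hu.map PadicInt.toZMod).ne_zero
  obtain ⟨d, hd⟩ := nm_zmod r hr p hp (PadicInt.toZMod u) hu0
  obtain ⟨ψ, hψ1, hψ2, hψ3⟩ := exists_crMap r hr (PadicInt.toZMod : ℤ_[p] →+* ZMod p)
  have hsurj : Function.Surjective (PadicInt.toZMod : ℤ_[p] →+* ZMod p) :=
    ZMod.ringHom_surjective _
  obtain ⟨c, hc⟩ := cu_lift r (PadicInt.toZMod : ℤ_[p] →+* ZMod p) hsurj ψ hψ1 hψ2 d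
  obtain ⟨x, hx⟩ := Nm_mem r hr ℤ_[p] c
  have hxu : (PadicInt.toZMod x : ZMod p) = PadicInt.toZMod u := by
    apply cr_inj r (ZMod p)
    rw [← hψ2, ← hx, map_Nm r hr ψ hψ3, hc, hd]
  have hxm : ∀ y : ℤ_[p], (PadicInt.toZMod y : ZMod p) = 0 ↔ ‖y‖ < 1 := by
    intro y
    rw [← RingHom.mem_ker, PadicInt.ker_toZMod, IsLocalRing.mem_maximalIdeal, PadicInt.mem_nonunits]
  have hxunit : IsUnit x := by
    by_contra hn
    have h1 : ‖x‖ < 1 := PadicInt.mem_nonunits.1 hn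
    rw [← hxm, hxu] at h1
    exact hu0 h1
  obtain ⟨y, hy⟩ := hxunit.exists_right_inv
  have hv : ‖1 - u * y‖ < 1 := by
    rw [← hxm, map_sub, map_one, map_mul, ← hxu, ← map_mul, hy, map_one, sub_self]
  let F : ℤ_[p][X] := ∑ i ∈ Finset.range r, X ^ i - C (u * y)
  have hF0 : F.aeval (0 : ℤ_[p]) = 1 - u * y := by
    have h1 : ∑ i ∈ Finset.range r, (0 : ℤ_[p]) ^ i = 1 := by
      rw [Finset.sum_eq_single 0]
      · exact pow_zero 0
      · intro b _ hb
        exact zero_pow hb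
      · intro h
        exact absurd (Finset.mem_range.2 (by omega)) h
    simp only [F, map_sub, map_sum, map_pow, aeval_X, aeval_C, h1]
    rfl
  have hF1 : F.derivative.aeval (0 : ℤ_[p]) = 1 := by
    have h1 : F.derivative.aeval (0 : ℤ_[p]) = F.derivative.coeff 0 := by
      rw [coe_aeval_eq_eval, coeff_zero_eq_eval_zero]
    have h2 : F.coeff 1 = 1 := by
      simp only [F, coeff_sub, finsetSum_coeff, coeff_X_pow, coeff_C]
      rw [Finset.sum_eq_single 1]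
      · simp
      · intro b _ hb
        rw [if_neg (Ne.symm hb)]
      · intro h
        exact absurd (Finset.mem_range.2 (by omega)) h
    rw [h1, coeff_derivative, h2]
    simp
  obtain ⟨t, ht, -⟩ := hensels_lemma (F := F) (a := (0 : ℤ_[p])) (by
    rw [hF0, hF1, norm_one, one_pow]
    exact hv)
  have ht' : ∑ i ∈ Finset.range r, t ^ i = u * y := by
    have h1 : F.aeval t = ∑ i ∈ Finset.range r, t ^ i - u * y := by
      simp only [F, map_sub, map_sum, map_pow, aeval_X, aeval_C]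
      rfl
    rw [h1] at ht
    exact sub_eq_zero.1 ht
  refine ⟨c * (1 - algebraMap ℤ_[p] (Cr r ℤ_[p]) t * ze r ℤ_[p]), ?_⟩
  rw [Nm_mul, hx, nm_one_sub, ht', ← map_mul]
  congr 1
  linear_combination u * hy

theorem unit_norm (r : ℕ) [Fact r.Prime] (hr : r ≠ 2) (p : ℕ) [Fact p.Prime] (hp : p ≠ r)
    (u : ℚ_[p]) (hu : ‖u‖ = 1) :
    ∃ c : Cr r ℚ_[p], IsUnit c ∧ Nm (cr r hr ℚ_[p]) c = algebraMap ℚ_[p] (Cr r ℚ_[p]) u := by
  obtain ⟨u', hu'⟩ : ∃ u' : ℤ_[p], (u' : ℚ_[p]) = u := ⟨⟨u, hu.le⟩, rfl⟩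
  have hu1 : IsUnit u' := PadicInt.isUnit_iff.2 (by rw [PadicInt.norm_def, hu', hu])
  obtain ⟨c, hc⟩ := nm_zp r hr p hp u' hu1
  obtain ⟨ψ, hψ1, hψ2, hψ3⟩ := exists_crMap r hr (PadicInt.Coe.ringHom : ℤ_[p] →+* ℚ_[p])
  have h1 : Nm (cr r hr ℚ_[p]) (ψ c) = algebraMap ℚ_[p] (Cr r ℚ_[p]) u := by
    rw [← map_Nm r hr ψ hψ3, hc, hψ2]
    congr 1
  have hu0 : u ≠ 0 := by
    intro h0
    rw [h0, norm_zero] at hu
    exact zero_ne_one hu
  refine ⟨ψ c, isUnit_of_Nm r hr ℚ_[p] (ψ c) ?_, h1⟩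
  rw [h1]
  exact (IsUnit.mk0 u hu0).map _

end Pool.Agent.Helper6.NP
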