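import Pool.Agent.Helper6.NP.Loc
import Pool.Agent.Helper1.SX.ExRat
import Pool.Agent.Helper1.SX.AdPts

set_option autoImplicit false

/-!
# NP-12: for every adelic point of the curve there is a class with exactly one nonzero local
value
-/

open Polynomial

namespace Pool.Agent.Helper6.NP

open Pool.Agent.Helper1.SX Pool.Agent.Helper8.BR

variable {Ω : Type} [Field Ω] [Algebra ℚ Ω]

/-- a unit of the coordinate ring is a unit at almost all primes -/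
theorem unit_fin {R : Subalgebra ℚ Ω} (P : AdPt R) (x : Rˣ) :
    {p | ‖P.fin p (x : R)‖ ≠ 1}.Finite := by
  refine ((P.int (x : R)).union (P.int ((x⁻¹ : Rˣ) : R))).subset ?_
  intro p hp
  by_contra hcon
  rw [Set.mem_union, not_or] at hcon
  obtain ⟨h1, h2⟩ := hcon
  rw [Set.mem_ofPred_eq, not_not] at h1 h2
  have h3 : P.fin p (x : R) * P.fin p ((x⁻¹ : Rˣ) : R) = 1 := by
    rw [← map_mul, Units.mul_inv, map_one]
  have h4 : ‖P.fin p (x : R)‖ * ‖P.fin p ((x⁻¹ : Rˣ) : R)‖ = 1 := by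
    rw [← norm_mul, h3, norm_one]
  apply hp
  have h5 := norm_nonneg (P.fin p (x : R))
  have h6 := norm_nonneg (P.fin p ((x⁻¹ : Rˣ) : R))
  nlinarith

/-- a nonzero rational number is a unit at almost all primes -/
theorem rat_fin {R : Subalgebra ℚ Ω} (P : AdPt R) (q : ℚ) (hq : q ≠ 0) :
    {p : Nat.Primes | ‖(q : ℚ_[p])‖ ≠ 1}.Finite := by
  have h1 := unit_fin P (Units.map (algebraMap ℚ R : ℚ →* R) (Units.mk0 q hq))
  refine h1.subset ?_
  intro p hp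
  have h2 : P.fin p (algebraMap ℚ R q) = (q : ℚ_[p]) := by
    have h3 : (P.fin p).comp (algebraMap ℚ R) = Rat.castHom ℚ_[p] := RingHom.ext_rat _ _
    exact congrArg (fun f : ℚ →+* ℚ_[p] => f q) h3
  intro h
  apply hp
  have h4 : ‖P.fin p (algebraMap ℚ R q)‖ = 1 := h
  rwa [h2] at h4

/-- a class with one nonzero local value, from a unit whose values are units everywhere, positive
at the real place and not `1` mod `r` at `r` -/
theorem class_of_unit {R : Subalgebra ℚ Ω} (P : AdPt R) (r : Nat.Primes) (hr : (r : ℕ) ≠ 2)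
    (f : Rˣ) (h1 : ∀ p, ‖P.fin p (f : R)‖ = 1) (h2 : 0 < P.real (f : R))
    (h3 : ¬ ‖P.fin r (f : R) - 1‖ < 1) :
    ∃ α : Br R, (∀ p, p ≠ r → Br.map (P.fin p) α = 0) ∧ Br.map P.real α = 0 ∧
      Br.map (P.fin r) α ≠ 0 := by
  refine ⟨brr r hr R f - brr r hr R 1, ?_, ?_, ?_⟩
  · intro p hp
    have h4 : (p : ℕ) ≠ r := fun h => hp (Subtype.ext h)
    rw [map_sub, brr_map, brr_map, map_one, sub_eq_zero]
    exact eval_p r hr p h4 _ (h1 p)
  · rw [map_sub, brr_map, brr_map, map_one, sub_eq_zero]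
    exact eval_real r hr _ h2
  · rw [map_sub, brr_map, brr_map, map_one, sub_ne_zero]
    intro h
    exact h3 (eval_r r hr _ (h1 r) h)

theorem exists_class (u w : Ω) (hu : Transcendental ℚ u) (hw : w ^ 2 = u ^ 4 + 1)
    (P : AdPt (Rc u w)) :
    ∃ (r : Nat.Primes) (α : Br (Rc u w)), (∀ p, p ≠ r → Br.map (P.fin p) α = 0) ∧
      Br.map P.real α = 0 ∧ Br.map (P.fin r) α ≠ 0 := by
  have hu0 : u ≠ 0 := by
    rintro rfl
    exact hu isAlgebraic_zero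
  have hw0 : w ≠ 0 := by
    rintro rfl
    apply hu
    refine ⟨X ^ 4 + 1, ?_, ?_⟩
    · intro h
      have h1 := congrArg (Polynomial.eval 0) h
      simp at h1
    · simp only [map_add, map_pow, aeval_X, map_one]
      rw [← hw]
      ring
  set U := uU u w hu0 with hU
  set W := wU u w hw0 with hW
  have hrel : (W : Rc u w) ^ 2 = (U : Rc u w) ^ 4 + 1 := Subtype.ext hw
  -- the rational numbers
  have hne : ∀ (x : (Rc u w)ˣ) (p : Nat.Primes), P.fin p (x : Rc u w) ≠ 0 := fun x p =>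
    (x.isUnit.map (P.fin p)).ne_zero
  have hner : ∀ x : (Rc u w)ˣ, P.real (x : Rc u w) ≠ 0 := fun x =>
    (x.isUnit.map P.real).ne_zero
  obtain ⟨q1, hq1, hn1, hp1⟩ := exists_rat (fun p => P.fin p (U : Rc u w)) (hne U)
    (unit_fin P U) (P.real (U : Rc u w)) (hner U)
  obtain ⟨q2, hq2, hn2, hp2⟩ := exists_rat (fun p => P.fin p (W : Rc u w)) (hne W)
    (unit_fin P W) (P.real (W : Rc u w)) (hner W)
  have hq : q2 ^ 2 - (q1 ^ 4 + 1) ≠ 0 := sub_ne_zero.mpr (no_rat q1 q2 hq1)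
  -- the prime
  have hinf : (Set.univ : Set Nat.Primes).Infinite := Set.infinite_univ
  have hfin : ({p : Nat.Primes | (p : ℕ) = 2} ∪ {p | ‖P.fin p (U : Rc u w)‖ ≠ 1} ∪
      {p | ‖P.fin p (W : Rc u w)‖ ≠ 1} ∪
      {p : Nat.Primes | ‖((q2 ^ 2 - (q1 ^ 4 + 1) : ℚ) : ℚ_[p])‖ ≠ 1}).Finite := by
    refine (((Set.Finite.union ?_ (unit_fin P U)).union (unit_fin P W)).union
      (rat_fin P _ hq))
    exact (Set.finite_singleton (⟨2, Nat.prime_two⟩ : Nat.Primes)).subset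
      fun p hp => Subtype.ext hp
  obtain ⟨r, -, hr⟩ := hinf.exists_notMem_finite hfin
  simp only [Set.mem_union, Set.mem_ofPred_eq, not_or, not_not] at hr
  obtain ⟨⟨⟨hr2, hrU⟩, hrW⟩, hrq⟩ := hr
  -- the units `u / q1`, `w / q2`
  have hcast : ∀ (q : ℚ) (p : Nat.Primes), P.fin p (algebraMap ℚ (Rc u w) q) = (q : ℚ_[p]) := by
    intro q p
    have h3 : (P.fin p).comp (algebraMap ℚ (Rc u w)) = Rat.castHom ℚ_[p] := RingHom.ext_rat _ _
    exact congrArg (fun f : ℚ →+* ℚ_[p] => f q) h3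
  have hcastr : ∀ q : ℚ, P.real (algebraMap ℚ (Rc u w) q) = (q : ℝ) := by
    intro q
    have h3 : P.real.comp (algebraMap ℚ (Rc u w)) = Rat.castHom ℝ := RingHom.ext_rat _ _
    exact congrArg (fun f : ℚ →+* ℝ => f q) h3
  have hval : ∀ (x : (Rc u w)ˣ) (q : ℚ) (hq : q ≠ 0) (p : Nat.Primes),
      P.fin p ((x * Units.map (algebraMap ℚ (Rc u w) : ℚ →* Rc u w) (Units.mk0 q⁻¹
        (inv_ne_zero hq)) : (Rc u w)ˣ) : Rc u w) = P.fin p (x : Rc u w) * (q : ℚ_[p])⁻¹ := by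
    intro x q hq p
    have h1 := hcast q⁻¹ p
    rw [Rat.cast_inv] at h1
    rw [Units.val_mul, map_mul, ← h1]
    rfl
  have hvalr : ∀ (x : (Rc u w)ˣ) (q : ℚ) (hq : q ≠ 0),
      P.real ((x * Units.map (algebraMap ℚ (Rc u w) : ℚ →* Rc u w) (Units.mk0 q⁻¹
        (inv_ne_zero hq)) : (Rc u w)ˣ) : Rc u w) = P.real (x : Rc u w) * (q : ℝ)⁻¹ := by
    intro x q hq
    have h1 := hcastr q⁻¹
    rw [Rat.cast_inv] at h1
    rw [Units.val_mul, map_mul, ← h1]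
    rfl
  have hgen : ∀ (x : (Rc u w)ˣ) (q : ℚ) (hq : q ≠ 0)
      (_ : ∀ p : Nat.Primes, ‖(q : ℚ_[p])‖ = ‖P.fin p (x : Rc u w)‖)
      (_ : 0 < P.real (x : Rc u w) * (q : ℝ)) (_ : ‖P.fin r (x : Rc u w)‖ = 1),
      (∃ α : Br (Rc u w), (∀ p, p ≠ r → Br.map (P.fin p) α = 0) ∧
        Br.map P.real α = 0 ∧ Br.map (P.fin r) α ≠ 0) ∨
      ‖P.fin r (x : Rc u w) - (q : ℚ_[r])‖ < 1 := by
    intro x q hq h1 h2 h3
    by_cases h4 : ‖P.fin r (x : Rc u w) - (q : ℚ_[r])‖ < 1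
    · exact Or.inr h4
    refine Or.inl (class_of_unit P r hr2 (x * Units.map (algebraMap ℚ (Rc u w) : ℚ →* Rc u w)
      (Units.mk0 q⁻¹ (inv_ne_zero hq))) ?_ ?_ ?_)
    · intro p
      rw [hval x q hq p, norm_mul, norm_inv, h1 p]
      exact mul_inv_cancel₀ (norm_ne_zero_iff.mpr (hne x p))
    · rw [hvalr x q hq]
      have h5 : P.real (x : Rc u w) * (q : ℝ)⁻¹ =
          P.real (x : Rc u w) * (q : ℝ) * ((q : ℝ)⁻¹) ^ 2 := by
        have h6 : (q : ℝ) ≠ 0 := by exact_mod_cast hq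
        field_simp
      rw [h5]
      have h6 : (q : ℝ) ≠ 0 := by exact_mod_cast hq
      positivity
    · rw [hval x q hq r]
      intro h5
      apply h4
      have h6 : (q : ℚ_[r]) ≠ 0 := by exact_mod_cast hq
      have h7 : P.fin r (x : Rc u w) - (q : ℚ_[r]) =
          (P.fin r (x : Rc u w) * (q : ℚ_[r])⁻¹ - 1) * (q : ℚ_[r]) := by
        field_simp
      rw [h7, norm_mul, h1 r, h3, mul_one]
      exact h5
  rcases hgen U q1 hq1 hn1 hp1 hrU with ⟨α, hα⟩ | hA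
  · exact ⟨r, α, hα⟩
  rcases hgen W q2 hq2 hn2 hp2 hrW with ⟨α, hα⟩ | hB
  · exact ⟨r, α, hα⟩
  -- contradiction
  exfalso
  have hrel' : P.fin r (W : Rc u w) ^ 2 = P.fin r (U : Rc u w) ^ 4 + 1 := by
    have h := congrArg (P.fin r) hrel
    simpa only [map_pow, map_add, map_one] using h
  set x := P.fin r (U : Rc u w) with hx
  set y := P.fin r (W : Rc u w) with hy
  have hq1n : ‖(q1 : ℚ_[r])‖ = 1 := by rw [hn1 r]; exact hrU
  have hq2n : ‖(q2 : ℚ_[r])‖ = 1 := by rw [hn2 r]; exact hrW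
  have key : ((q2 ^ 2 - (q1 ^ 4 + 1) : ℚ) : ℚ_[r]) =
      (x - q1) * (x + q1) * (x ^ 2 + q1 ^ 2) - (y - q2) * (y + q2) := by
    push_cast
    linear_combination hrel'
  have hle : ∀ a b : ℚ_[r], ‖a‖ ≤ 1 → ‖b‖ ≤ 1 → ‖a + b‖ ≤ 1 := fun a b ha hb =>
    (Padic.nonarchimedean a b).trans (max_le ha hb)
  have hlt1 : ‖(x - q1) * (x + q1) * (x ^ 2 + q1 ^ 2)‖ < 1 := by
    rw [norm_mul, norm_mul]
    have e1 : ‖x + q1‖ ≤ 1 := hle _ _ hrU.le hq1n.le
    have e2 : ‖x ^ 2 + (q1 : ℚ_[r]) ^ 2‖ ≤ 1 := by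
      refine hle _ _ ?_ ?_
      · rw [norm_pow, hrU, one_pow]
      · rw [norm_pow, hq1n, one_pow]
    calc ‖x - q1‖ * ‖x + q1‖ * ‖x ^ 2 + (q1 : ℚ_[r]) ^ 2‖ ≤ ‖x - q1‖ * 1 * 1 := by
          gcongr
      _ < 1 := by rw [mul_one, mul_one]; exact hA
  have hlt2 : ‖(y - q2) * (y + q2)‖ < 1 := by
    rw [norm_mul]
    have e1 : ‖y + q2‖ ≤ 1 := hle _ _ hrW.le hq2n.le
    calc ‖y - q2‖ * ‖y + q2‖ ≤ ‖y - q2‖ * 1 := by gcongr
      _ < 1 := by rw [mul_one]; exact hB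
  have hfinal : ‖((q2 ^ 2 - (q1 ^ 4 + 1) : ℚ) : ℚ_[r])‖ < 1 := by
    rw [key, sub_eq_add_neg]
    refine lt_of_le_of_lt (Padic.nonarchimedean _ _) ?_
    rw [norm_neg]
    exact max_lt hlt1 hlt2
  rw [hrq] at hfinal
  exact lt_irrefl _ hfinal

end Pool.Agent.Helper6.NP
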