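import Pool.Agent.Helper6.NP.Brc
import Pool.Agent.Helper6.NP.CrR
import Pool.Agent.Helper6.NP.CrRN

set_option autoImplicit false

/-!
# NP-11: the classes `(x, χ_r)` over `ℚ_p`, `ℝ`
-/

open Polynomial

namespace Pool.Agent.Helper6.NP

open Pool.Agent.Helper1.SX Pool.Agent.Helper8.BR

variable (r : ℕ) [Fact r.Prime] (hr : r ≠ 2)

theorem eval_p (p : ℕ) [Fact p.Prime] (hp : p ≠ r) (x : ℚ_[p]ˣ) (hx : ‖(x : ℚ_[p])‖ = 1) :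
    brr r hr ℚ_[p] x = brr r hr ℚ_[p] 1 := by
  obtain ⟨c, hc, h⟩ := unit_norm r hr p hp (x : ℚ_[p]) hx
  have h1 := brr_norm r hr 1 x c hc h
  rwa [one_mul] at h1

theorem eval_real (x : ℝˣ) (hx : 0 < (x : ℝ)) : brr r hr ℝ x = brr r hr ℝ 1 := by
  have hr2 : r - 1 ≠ 0 := by
    have h := (Fact.out : r.Prime).two_le
    omega
  have h1 : ((x : ℝ) ^ ((r - 1 : ℕ) : ℝ)⁻¹) ^ (r - 1) = (x : ℝ) :=
    Real.rpow_inv_natCast_pow hx.le hr2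
  have h2 : Nm (cr r hr ℝ) (algebraMap ℝ (Cr r ℝ) ((x : ℝ) ^ ((r - 1 : ℕ) : ℝ)⁻¹)) =
      algebraMap ℝ (Cr r ℝ) (x : ℝ) := by
    rw [Nm_const, h1]
  have h3 : IsUnit (algebraMap ℝ (Cr r ℝ) ((x : ℝ) ^ ((r - 1 : ℕ) : ℝ)⁻¹)) :=
    (isUnit_iff_ne_zero.mpr (Real.rpow_pos_of_pos hx _).ne').map _
  have h4 := brr_norm r hr 1 x _ h3 h2
  rwa [one_mul] at h4

theorem eval_r (x : ℚ_[r]ˣ) (hx : ‖(x : ℚ_[r])‖ = 1) (h : brr r hr ℚ_[r] x = brr r hr ℚ_[r] 1) :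
    ‖(x : ℚ_[r]) - 1‖ < 1 := by
  obtain ⟨c, -, h1⟩ := brr_field r hr (irr_qr r) x 1 h
  rw [Units.val_one, map_one, one_mul] at h1
  exact nm_r r hr (x : ℚ_[r]) hx c h1.symm

end Pool.Agent.Helper6.NP
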