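import Pool.Agent.Helper1.SX.Stat

set_option autoImplicit false

/-!
# NP-13: an algebraic closure of the function field of the curve `w² = u⁴ + 1`
-/

open Polynomial

namespace Pool.Agent.Helper6.NP

open Pool.Agent.Helper1.SX

theorem exists_om : ∃ (Ω : Type) (_ : Field Ω) (_ : Algebra ℚ Ω) (u w : Ω), IsAlgClosed Ω ∧
    Transcendental ℚ u ∧ w ^ 2 = u ^ 4 + 1 ∧ Algebra.IsAlgebraic (ff (Rc u w)) Ω := by
  let Ω := AlgebraicClosure (RatFunc ℚ)
  let u : Ω := algebraMap (RatFunc ℚ) Ω RatFunc.X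
  obtain ⟨w, hw⟩ := IsAlgClosed.exists_pow_nat_eq (u ^ 4 + 1) (n := 2) (by norm_num)
  have hinj : Function.Injective (algebraMap (RatFunc ℚ) Ω) := (algebraMap (RatFunc ℚ) Ω).injective
  have hpol : ∀ p : ℚ[X], algebraMap (RatFunc ℚ) Ω (algebraMap ℚ[X] (RatFunc ℚ) p) =
      aeval u p := by
    intro p
    have h1 : (aeval (RatFunc.X : RatFunc ℚ)) p = algebraMap ℚ[X] (RatFunc ℚ) p := by
      rw [← RatFunc.algebraMap_X, aeval_algebraMap_apply, aeval_X_left_apply]
    rw [← h1, ← aeval_algebraMap_apply]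
  refine ⟨Ω, inferInstance, inferInstance, u, w, inferInstance, ?_, hw, ?_⟩
  · rintro ⟨p, hp, h0⟩
    apply hp
    rw [← hpol p, map_eq_zero] at h0
    exact (map_eq_zero_iff _ (RatFunc.algebraMap_injective ℚ)).mp h0
  · have hmem : ∀ x : RatFunc ℚ, algebraMap (RatFunc ℚ) Ω x ∈ ff (Rc u w) := by
      intro x
      have hp : ∀ p : ℚ[X], aeval u p ∈ ff (Rc u w) := by
        intro p
        have hu : u ∈ ff (Rc u w) :=
          IntermediateField.subset_adjoin ℚ _ (Algebra.subset_adjoin (by simp))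
        exact (aeval (⟨u, hu⟩ : ff (Rc u w)) p).2 |> fun h => by
          have h2 := Polynomial.aeval_algebraMap_apply Ω (⟨u, hu⟩ : ff (Rc u w)) p
          have h3 : algebraMap (ff (Rc u w)) Ω (⟨u, hu⟩ : ff (Rc u w)) = u := rfl
          rw [h3] at h2
          rw [h2]
          exact (aeval (⟨u, hu⟩ : ff (Rc u w)) p).2
      rw [← RatFunc.num_div_denom x, map_div₀, hpol, hpol]
      exact div_mem (hp _) (hp _)
    let j : RatFunc ℚ →+* ff (Rc u w) :=
      (algebraMap (RatFunc ℚ) Ω).codRestrict (ff (Rc u w)) hmem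
    refine ⟨fun z => ?_⟩
    obtain ⟨p, hp, hz⟩ := (AlgebraicClosure.isAlgebraic (RatFunc ℚ)).isAlgebraic z
    refine ⟨p.map j, (Polynomial.map_ne_zero_iff j.injective).mpr hp, ?_⟩
    rw [aeval_def, eval₂_map]
    exact hz

end Pool.Agent.Helper6.NP
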