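import Pool.Agent.Helper1.SX.Stat

set_option autoImplicit false

/-!
# NP-16: continuous splittings (definitions)
-/

namespace Pool.Agent.Helper6.NP

open Pool.Agent.Helper1.SX Pool.Agent.SB

/-- For two field extensions `M/k` and `L/K` and maps `i : M → Ω`, `j : L → Ω` (inclusions into a
common field): there is a continuous homomorphism `s : Gal(M/k) → Gal(L/K)` (Krull topologies)
such that for every `γ` the automorphism `s γ` agrees with `γ` on the common elements of `M` and
`L`. -/
def ContSplit (k M K L : Type) {Ω : Type} [Field k] [Field M] [Algebra k M] [Field K] [Field L]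
    [Algebra K L] (i : M → Ω) (j : L → Ω) : Prop :=
  ∃ s : (M ≃ₐ[k] M) →* (L ≃ₐ[K] L), Continuous s ∧
    ∀ (γ : M ≃ₐ[k] M) (θ : M) (z : L), j z = i θ → j (s γ z) = i (γ θ)

/-- a continuous section of `Gal(Ω/K) → Gal(kbar/k)`, `K` the fraction field of `R`, `Ω` an
algebraic closure of `K`: it gives a continuous splitting of `π₁(U) → Gal(kbar/k)` for all
nonempty open `U` in the variety `Spec R` (if it is normal) at once -/
def StrongSplitting {k : Type} [Field k] {Ω : Type} [Field Ω] [Algebra k Ω]
    (R : Subalgebra k Ω) : Prop :=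
  ContSplit k (kbar k Ω) (ff R) Ω (fun θ => (θ : Ω)) (fun z => z)

end Pool.Agent.Helper6.NP
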