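import Pool.Agent.Helper6.NP.Glob
import Pool.Agent.Helper6.NP.Om
import Pool.Agent.Helper1.SX.IntCl
import Pool.Agent.Helper6.NP.SS

set_option autoImplicit false

/-!
# NP-14: local invariants, the Brauer-Manin set, and its emptiness for the curve
-/

namespace Pool.Agent.Helper6.NP

open Pool.Agent.Helper1.SX Pool.Agent.Helper8.BR Pool.Agent.SB

/-- a family of injective homomorphisms `Br(ℚ_v) → ℚ/ℤ`, one for every place `v` of `ℚ`; the
classical local invariants are such a family -/
structure LocInv where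
  /-- the invariant at the prime `p` -/
  fin : ∀ p : Nat.Primes, Br ℚ_[p] →+ AddCircle (1 : ℚ)
  /-- the invariant at the real place -/
  real : Br ℝ →+ AddCircle (1 : ℚ)
  fin_inj : ∀ p, Function.Injective (fin p)
  real_inj : Function.Injective real

section

variable {Ω : Type} [Field Ω] [Algebra ℚ Ω]

/-- the value `α(P_p)` in `Br(ℚ_p)` -/
noncomputable def valFin {R : Subalgebra ℚ Ω} (P : AdPt R) (α : Br R) (p : Nat.Primes) :
    Br ℚ_[p] := Br.map (P.fin p) α

/-- the value of `α` at the real component of `P`, in `Br(ℝ)` -/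
noncomputable def valReal {R : Subalgebra ℚ Ω} (P : AdPt R) (α : Br R) : Br ℝ :=
  Br.map P.real α

/-- `α(P_v) = 0` for all places `v` of `ℚ` except the prime `r`, and `α(P_r) ≠ 0` -/
def OneBad {R : Subalgebra ℚ Ω} (P : AdPt R) (α : Br R) (r : Nat.Primes) : Prop :=
  (∀ p, p ≠ r → valFin P α p = 0) ∧ valReal P α = 0 ∧ valFin P α r ≠ 0

/-- the local invariant of `α(P_p)` -/
noncomputable def LocInv.atFin (I : LocInv) {R : Subalgebra ℚ Ω} (P : AdPt R) (α : Br R)
    (p : Nat.Primes) : AddCircle (1 : ℚ) := I.fin p (valFin P α p)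

/-- the local invariant of `α` at the real component of `P` -/
noncomputable def LocInv.atReal (I : LocInv) {R : Subalgebra ℚ Ω} (P : AdPt R) (α : Br R) :
    AddCircle (1 : ℚ) := I.real (valReal P α)

/-- the set of the adelic points `(P_v)` with `∑_v inv_v(α(P_v)) = 0` for all classes `α` of
Azumaya algebras over the coordinate ring `R` -/
def BMset (R : Subalgebra ℚ Ω) (I : LocInv) : Set (AdPt R) :=
  {P | ∀ α : Br R, I.atReal P α + ∑ᶠ p, I.atFin P α p = 0}

theorem exists_oneBad (u w : Ω) (hu : Transcendental ℚ u) (hw : w ^ 2 = u ^ 4 + 1)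
    (P : AdPt (Rc u w)) : ∃ (r : Nat.Primes) (α : Br (Rc u w)), OneBad P α r :=
  exists_class u w hu hw P

theorem bmset_empty (u w : Ω) (hu : Transcendental ℚ u) (hw : w ^ 2 = u ^ 4 + 1) (I : LocInv) :
    BMset (Rc u w) I = ∅ := by
  ext P
  simp only [Set.mem_empty_iff_false, iff_false]
  intro hP
  obtain ⟨r, α, h1, h2, h3⟩ := exists_oneBad u w hu hw P
  have h4 : I.atReal P α + ∑ᶠ p, I.atFin P α p = 0 := hP α
  unfold LocInv.atReal LocInv.atFin at h4
  rw [h2, map_zero, zero_add, finsum_eq_single _ r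
    (fun p hp => by rw [h1 p hp, map_zero])] at h4
  apply h3
  apply I.fin_inj r
  rw [h4, map_zero]

end

end Pool.Agent.Helper6.NP
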